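import Pool.Agent.Hhelper17.PE.Gen
import Pool.Agent.Hhelper96.PEPS.Spectral

/-!
Matrix part: operator norm and quadratic forms, Jensen's inequality for the exponential of a Hermitian
matrix, and the two-sided bound for `V V^*` against `exp (-t H)`.
-/

set_option autoImplicit false
set_option linter.unusedSectionVars false

open scoped BigOperators Matrix.Norms.L2Operator
open Matrix Pool.Agent.Hhelper96.PEPS

namespace Pool.Agent.Hhelper17.PE

section forms

variable {n : Type} [Fintype n] [DecidableEq n]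

theorem sqn_eq (φ : n → ℂ) : sqn φ = ‖(WithLp.toLp 2 φ : EuclideanSpace ℂ n)‖ ^ 2 := by
  rw [EuclideanSpace.norm_sq_eq]
  rfl

theorem norm_toLp_eq (φ : n → ℂ) : ‖(WithLp.toLp 2 φ : EuclideanSpace ℂ n)‖ = √(sqn φ) := by
  rw [sqn_eq, Real.sqrt_sq (norm_nonneg _)]

theorem norm_le_one {A : Matrix n n ℂ} (h : ∀ φ : n → ℂ, sqn (A.mulVec φ) ≤ sqn φ) : ‖A‖ ≤ 1 := by
  rw [Matrix.l2_opNorm_def]
  refine ContinuousLinearMap.opNorm_le_bound _ zero_le_one (fun x => ?_)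
  rw [one_mul]
  have h1 := h x.ofLp
  rw [sqn_eq, sqn_eq] at h1
  have h2 : ‖(WithLp.toLp 2 (A.mulVec x.ofLp) : EuclideanSpace ℂ n)‖ ≤ ‖x‖ :=
    le_of_sq_le_sq h1 (norm_nonneg _)
  exact h2

theorem sqrt_sqn_mulVec_le (A : Matrix n n ℂ) (φ : n → ℂ) :
    √(sqn (A.mulVec φ)) ≤ ‖A‖ * √(sqn φ) := by
  have h1 := Matrix.l2_opNorm_mulVec A (WithLp.toLp 2 φ)
  rw [← norm_toLp_eq, ← norm_toLp_eq]
  exact h1

theorem abs_ex_le (A : Matrix n n ℂ) (φ : n → ℂ) : |ex A φ| ≤ ‖A‖ * sqn φ := by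
  unfold ex
  refine (Complex.abs_re_le_norm _).trans ((cauchy φ (A.mulVec φ)).trans ?_)
  have h1 := sqrt_sqn_mulVec_le A φ
  have h2 : sqn φ = √(sqn φ) * √(sqn φ) := (Real.mul_self_sqrt (sqn_nonneg φ)).symm
  have h3 := Real.sqrt_nonneg (sqn φ)
  calc √(sqn φ) * √(sqn (A.mulVec φ)) ≤ √(sqn φ) * (‖A‖ * √(sqn φ)) :=
        mul_le_mul_of_nonneg_left h1 h3
    _ = ‖A‖ * (√(sqn φ) * √(sqn φ)) := by ring
    _ = ‖A‖ * sqn φ := by rw [← h2]

/-- quadratic form of a conjugated matrix -/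
theorem ex_conj (W M : Matrix n n ℂ) (φ : n → ℂ) : ex (W * M * Wᴴ) φ = ex M (Wᴴ.mulVec φ) := by
  unfold ex
  rw [← Matrix.mulVec_mulVec, ← Matrix.mulVec_mulVec, Matrix.dotProduct_mulVec,
    Matrix.star_mulVec, Matrix.conjTranspose_conjTranspose]

theorem ex_one (φ : n → ℂ) : ex (1 : Matrix n n ℂ) φ = sqn φ := by
  unfold ex
  rw [Matrix.one_mulVec, star_dot_self, Complex.ofReal_re]

theorem ex_mul_conj (W : Matrix n n ℂ) (φ : n → ℂ) : ex (W * Wᴴ) φ = sqn (Wᴴ.mulVec φ) := by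
  have := ex_conj W 1 φ
  rwa [mul_one, ex_one] at this

theorem ex_conj_mul (W : Matrix n n ℂ) (φ : n → ℂ) : ex (Wᴴ * W) φ = sqn (W.mulVec φ) := by
  have := ex_mul_conj Wᴴ φ
  rwa [Matrix.conjTranspose_conjTranspose] at this

theorem ex_diag (v : n → ℝ) (φ : n → ℂ) :
    ex (Matrix.diagonal (fun k => (v k : ℂ))) φ = ∑ k, v k * ‖φ k‖ ^ 2 := by
  unfold ex dotProduct
  rw [Complex.re_sum]
  refine Finset.sum_congr rfl (fun k _ => ?_)
  rw [Matrix.mulVec_diagonal, Pi.star_apply]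
  have h1 : star (φ k) * ((v k : ℂ) * φ k) = ((v k * ‖φ k‖ ^ 2 : ℝ) : ℂ) := by
    have h2 := Complex.normSq_eq_conj_mul_self (z := φ k)
    rw [Complex.normSq_eq_norm_sq] at h2
    have h3 : star (φ k) * φ k = ((‖φ k‖ ^ 2 : ℝ) : ℂ) := by
      rw [h2]
      rfl
    calc star (φ k) * ((v k : ℂ) * φ k) = (v k : ℂ) * (star (φ k) * φ k) := by ring
      _ = _ := by rw [h3]; push_cast; rfl
  rw [h1, Complex.ofReal_re]

/-- Jensen's inequality -/
theorem jensen {H : Matrix n n ℂ} (hH : H.IsHermitian) (a : ℝ) {φ : n → ℂ} (hφ : φ ≠ 0) :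
    sqn φ * Real.exp (a * (ex H φ / sqn φ)) ≤ ex (NormedSpace.exp ((a : ℂ) • H)) φ := by
  obtain ⟨U, hU⟩ : ∃ U : Matrix n n ℂ, U = (hH.eigenvectorUnitary : Matrix n n ℂ) := ⟨_, rfl⟩
  obtain ⟨lam, hlam⟩ : ∃ lam : n → ℝ, lam = hH.eigenvalues := ⟨_, rfl⟩
  have hUU : U * Uᴴ = 1 := by
    rw [hU, ← Matrix.star_eq_conjTranspose]
    exact Unitary.coe_mul_star_self hH.eigenvectorUnitary
  have hinv : U⁻¹ = Uᴴ := Matrix.inv_eq_right_inv hUU
  have hunit : IsUnit U := by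
    rw [Matrix.isUnit_iff_isUnit_det]
    exact Matrix.isUnit_det_of_right_inverse hUU
  have hspec : H = U * Matrix.diagonal (fun k => (lam k : ℂ)) * Uᴴ := by
    have h1 := hH.spectral_theorem
    rw [Unitary.conjStarAlgAut_apply] at h1
    rw [hU, hlam, ← Matrix.star_eq_conjTranspose]
    exact h1
  have hexp : NormedSpace.exp ((a : ℂ) • H) =
      U * Matrix.diagonal (fun k => ((Real.exp (a * lam k) : ℝ) : ℂ)) * Uᴴ := by
    have h1 : (a : ℂ) • H = U * ((a : ℂ) • Matrix.diagonal (fun k => (lam k : ℂ))) * U⁻¹ := by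
      rw [hinv, mul_smul_comm, smul_mul_assoc, ← hspec]
    rw [h1, Matrix.exp_conj U _ hunit, hinv]
    congr 2
    rw [← Matrix.diagonal_smul, Matrix.exp_diagonal]
    congr 1
    funext k
    rw [Pi.coe_exp, Pi.smul_apply, smul_eq_mul, Complex.ofReal_exp, Complex.exp_eq_exp_ℂ]
    push_cast
    rfl
  obtain ⟨w, hw⟩ : ∃ w : n → ℝ, w = fun k => ‖(Uᴴ.mulVec φ) k‖ ^ 2 := ⟨_, rfl⟩
  have hw0 : ∀ k, 0 ≤ w k := by
    intro k
    rw [hw]
    positivity
  have e1 : ex H φ = ∑ k, lam k * w k := by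
    rw [hspec, ex_conj, ex_diag, hw]
  have e2 : sqn φ = ∑ k, w k := by
    have h1 := ex_mul_conj U φ
    rw [hUU, ex_one] at h1
    rw [h1, hw]
    rfl
  have e3 : ex (NormedSpace.exp ((a : ℂ) • H)) φ = ∑ k, Real.exp (a * lam k) * w k := by
    rw [hexp, ex_conj, ex_diag, hw]
  have hpos : 0 < sqn φ := sqn_pos hφ
  obtain ⟨m, hm⟩ : ∃ m, m = a * (ex H φ / sqn φ) := ⟨_, rfl⟩
  rw [← hm, e3]
  have h1 : ∀ k, Real.exp m * (1 + (a * lam k - m)) * w k ≤ Real.exp (a * lam k) * w k := by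
    intro k
    apply mul_le_mul_of_nonneg_right _ (hw0 k)
    have h2 : Real.exp (a * lam k) = Real.exp m * Real.exp (a * lam k - m) := by
      rw [← Real.exp_add]
      congr 1
      ring
    rw [h2]
    apply mul_le_mul_of_nonneg_left _ (Real.exp_pos m).le
    have := Real.add_one_le_exp (a * lam k - m)
    linarith
  have h3 : ∑ k, Real.exp m * (1 + (a * lam k - m)) * w k = sqn φ * Real.exp m := by
    have h4 : ∑ k, Real.exp m * (1 + (a * lam k - m)) * w k =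
        Real.exp m * ((1 - m) * ∑ k, w k + a * ∑ k, lam k * w k) := by
      rw [Finset.mul_sum, Finset.mul_sum, ← Finset.sum_add_distrib, Finset.mul_sum]
      refine Finset.sum_congr rfl (fun k _ => ?_)
      ring
    rw [h4, ← e1, ← e2]
    have h5 : m * sqn φ = a * ex H φ := by
      rw [hm]
      field_simp
    have h6 : (1 - m) * sqn φ + a * ex H φ = sqn φ := by
      rw [← h5]; ring
    rw [h6]
    ring
  rw [← h3]
  exact Finset.sum_le_sum (fun k _ => h1 k)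

/-- the quadratic form as a continuous linear functional -/
noncomputable def exL (φ : n → ℂ) : Matrix n n ℂ →ₗ[ℝ] ℝ where
  toFun A := ex A φ
  map_add' A B := ex_add A B φ
  map_smul' r A := by
    have h1 : r • A = (r : ℂ) • A := by
      ext i j
      simp
    rw [h1, ex_smul]
    rfl

theorem hasDerivAt_ex {X : ℝ → Matrix n n ℂ} {X' : Matrix n n ℂ} {s : ℝ} (h : HasDerivAt X X' s)
    (φ : n → ℂ) : HasDerivAt (fun s => ex (X s) φ) (ex X' φ) s := by
  have h1 := (LinearMap.toContinuousLinearMap (exL φ)).hasFDerivAt.comp_hasDerivAt s h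
  exact h1

/-- the `V` of a real time is conjugated by reversing the list -/
theorem P_conjTranspose {c : ℕ} {K : Fin c → Matrix n n ℂ} (hK : ∀ b, (K b).IsHermitian)
    (l : List (Fin c × ℝ)) (t : ℝ) : (P K l (t : ℂ))ᴴ = P K l.reverse (t : ℂ) := by
  induction l with
  | nil => simp [P_nil]
  | cons b l ih =>
    rw [P_cons, Matrix.conjTranspose_mul, ih, List.reverse_cons, P_append, P_single,
      ← Matrix.exp_conjTranspose, Matrix.conjTranspose_smul, (hK b.1).eq]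
    congr 3
    simp

theorem exp_herm {H : Matrix n n ℂ} (hH : H.IsHermitian) (a : ℝ) :
    (NormedSpace.exp ((a : ℂ) • H))ᴴ = NormedSpace.exp ((a : ℂ) • H) := by
  rw [← Matrix.exp_conjTranspose, Matrix.conjTranspose_smul, hH.eq]
  congr 2
  simp

end forms

end Pool.Agent.Hhelper17.PE
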