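import Pool.Agent.Hhelper17.PE.Local

/-!
The generator of `exp (z H / 2) V(z) V^(z) exp (z H / 2)`: it is a sum of local terms, it vanishes to
order `2 p` at `0`, and hence it is bounded by `C |I| |z| ^ (2 p)`.
-/

set_option autoImplicit false
set_option linter.unusedSectionVars false

open scoped BigOperators

namespace Pool.Agent.Hhelper17.PE

section gen

variable {c : ℕ} {𝔸 : Type} [NormedRing 𝔸] [NormedAlgebra ℂ 𝔸] [CompleteSpace 𝔸]
variable (K : Fin c → 𝔸)

/-- the generator of `S = V V^`, without `H` -/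
noncomputable def Bg : List (Fin c × ℝ) → ℂ → 𝔸
  | [], _ => 0
  | b :: l, z => Bg l z - (b.2 : ℂ) • (tau K l z (K b.1) + tau K l (-z) (K b.1))

theorem Bg_diff (l : List (Fin c × ℝ)) : Differentiable ℂ (Bg K l) := by
  induction l with
  | nil =>
    have : Bg K [] = fun _ => (0 : 𝔸) := rfl
    rw [this]
    exact differentiable_const 0
  | cons b l ih =>
    have h1 : Bg K (b :: l) = fun z => Bg K l z -
        (b.2 : ℂ) • (tau K l z (K b.1) + tau K l (-z) (K b.1)) := rfl
    rw [h1]
    have h2 : Differentiable ℂ (fun z => tau K l z (K b.1) + tau K l (-z) (K b.1)) :=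
      (tau_diff K l (K b.1)).add ((tau_diff K l (K b.1)).comp differentiable_neg)
    exact ih.sub (h2.const_smul (b.2 : ℂ))

theorem hasDerivAt_E (a : ℂ) (H : 𝔸) (z : ℂ) :
    HasDerivAt (fun z : ℂ => NormedSpace.exp ((a * z) • H))
      (a • (NormedSpace.exp ((a * z) • H) * H)) z := by
  have h2 := hasDerivAt_exp_smul_const (a • H) z
  have h3 : NormedSpace.exp (z • a • H) * a • H = a • (NormedSpace.exp ((a * z) • H) * H) := by
    rw [mul_smul_comm, smul_smul, mul_comm z a]
  rw [h3] at h2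
  refine h2.congr_of_eventuallyEq (Filter.Eventually.of_forall (fun z => ?_))
  simp only
  rw [smul_smul, mul_comm]

theorem exp_comm (a : ℂ) (H : 𝔸) : NormedSpace.exp (a • H) * H = H * NormedSpace.exp (a • H) :=
  (((Commute.refl H).smul_left a).exp_left).eq

/-- derivative of `S = V V^` -/
theorem hasDerivAt_S (l : List (Fin c × ℝ)) (z : ℂ) :
    HasDerivAt (fun z => P K l z * P K l.reverse z)
      (P K l z * Bg K l z * P K l.reverse z) z := by
  induction l with
  | nil =>
    simp only [List.reverse_nil, P_nil, mul_one]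
    have : Bg K [] z = 0 := rfl
    rw [this, mul_zero]
    exact hasDerivAt_const z 1
  | cons b l ih =>
    obtain ⟨E, hE⟩ : ∃ E : ℂ → 𝔸, E = fun z : ℂ => NormedSpace.exp ((-(b.2 : ℂ) * z) • K b.1) :=
      ⟨_, rfl⟩
    have hE0 : ∀ z, NormedSpace.exp ((-((b.2 : ℂ) * z)) • K b.1) = E z := by
      intro z
      rw [hE]
      simp only [neg_mul]
    have h0 : (fun z => P K (b :: l) z * P K (b :: l).reverse z) =
        fun z => E z * (P K l z * P K l.reverse z) * E z := by
      funext z
      rw [P_cons, List.reverse_cons, P_append, P_single, hE0]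
      simp only [mul_assoc]
    have hd : HasDerivAt E ((-(b.2 : ℂ)) • (E z * K b.1)) z := by
      rw [hE]
      exact hasDerivAt_E (-(b.2 : ℂ)) (K b.1) z
    have hc : E z * K b.1 = K b.1 * E z := by
      rw [hE]
      exact exp_comm _ _
    have h1 : HasDerivAt (fun z => E z * (P K l z * P K l.reverse z) * E z) _ z :=
      (hd.mul ih).mul hd
    rw [h0]
    refine h1.congr_deriv ?_
    symm
    have hB : Bg K (b :: l) z = Bg K l z -
        (b.2 : ℂ) • (tau K l z (K b.1) + tau K l (-z) (K b.1)) := rfl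
    have e1 : P K l z * tau K l z (K b.1) = K b.1 * P K l z := by
      unfold tau
      rw [← mul_assoc, ← mul_assoc, P_mul_reverse, one_mul]
    have e2 : tau K l (-z) (K b.1) * P K l.reverse z = P K l.reverse z * K b.1 := by
      unfold tau
      have h3 := P_reverse_mul K l.reverse z
      rw [List.reverse_reverse] at h3
      rw [neg_neg, mul_assoc, h3, mul_one]
    rw [hB, P_cons, List.reverse_cons, P_append, P_single, hE0]
    have e3 : P K l z * (Bg K l z - (b.2 : ℂ) • (tau K l z (K b.1) + tau K l (-z) (K b.1))) *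
        P K l.reverse z = P K l z * Bg K l z * P K l.reverse z -
        (b.2 : ℂ) • (K b.1 * (P K l z * P K l.reverse z) +
          (P K l z * P K l.reverse z) * K b.1) := by
      rw [mul_sub, sub_mul, mul_smul_comm, smul_mul_assoc, mul_add, add_mul, e1]
      congr 3
      · rw [mul_assoc]
      · rw [mul_assoc, e2, mul_assoc]
    calc E z * P K l z * (Bg K l z - (b.2 : ℂ) • (tau K l z (K b.1) + tau K l (-z) (K b.1))) *
          (P K l.reverse z * E z)
        = E z * (P K l z * (Bg K l z - (b.2 : ℂ) • (tau K l z (K b.1) + tau K l (-z) (K b.1))) *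
          P K l.reverse z) * E z := by simp only [mul_assoc]
      _ = _ := by
        rw [e3, mul_sub, sub_mul, mul_smul_comm, smul_mul_assoc, mul_add, add_mul]
        have e4 : E z * (K b.1 * (P K l z * P K l.reverse z)) * E z =
            E z * K b.1 * (P K l z * P K l.reverse z) * E z := by simp only [mul_assoc]
        have e5 : E z * (P K l z * P K l.reverse z * K b.1) * E z =
            E z * (P K l z * P K l.reverse z) * (E z * K b.1) := by
          rw [hc]
          simp only [mul_assoc]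
        rw [e4, e5]
        simp only [smul_mul_assoc, mul_smul_comm, neg_smul, smul_add, neg_mul, mul_neg, add_mul]
        abel

/-- the generator -/
noncomputable def Mg (H : 𝔸) (w : List (Fin c × ℝ)) (z : ℂ) : 𝔸 :=
  (1 / 2 : ℂ) • (tau K w z H + tau K w (-z) H) + Bg K w z

theorem Mg_diff (H : 𝔸) (w : List (Fin c × ℝ)) : Differentiable ℂ (Mg K H w) := by
  have h1 : Differentiable ℂ (fun z => tau K w z H + tau K w (-z) H) :=
    (tau_diff K w H).add ((tau_diff K w H).comp differentiable_neg)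
  exact (h1.const_smul (1 / 2 : ℂ)).add (Bg_diff K w)

/-- derivative of `X = exp (z H / 2) S exp (z H / 2)` -/
theorem hasDerivAt_X (H : 𝔸) (w : List (Fin c × ℝ)) (z : ℂ) :
    HasDerivAt (fun z : ℂ => NormedSpace.exp ((1 / 2 * z) • H) *
      (P K w z * P K w.reverse z) * NormedSpace.exp ((1 / 2 * z) • H))
      (NormedSpace.exp ((1 / 2 * z) • H) * P K w z * Mg K H w z *
        (P K w.reverse z * NormedSpace.exp ((1 / 2 * z) • H))) z := by
  have hd := hasDerivAt_E (1 / 2) H z
  have h1 : HasDerivAt (fun z : ℂ => NormedSpace.exp ((1 / 2 * z) • H) *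
      (P K w z * P K w.reverse z) * NormedSpace.exp ((1 / 2 * z) • H)) _ z :=
    (hd.mul (hasDerivAt_S K w z)).mul hd
  refine h1.congr_deriv ?_
  symm
  simp only [Pi.mul_apply]
  have hc := exp_comm (1 / 2 * z) H
  have e1 : P K w z * tau K w z H = H * P K w z := by
    unfold tau
    rw [← mul_assoc, ← mul_assoc, P_mul_reverse, one_mul]
  have e2 : tau K w (-z) H * P K w.reverse z = P K w.reverse z * H := by
    unfold tau
    have h3 := P_reverse_mul K w.reverse z
    rw [List.reverse_reverse] at h3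
    rw [neg_neg, mul_assoc, h3, mul_one]
  obtain ⟨E, hE⟩ : ∃ E, E = NormedSpace.exp ((1 / 2 * z) • H) := ⟨_, rfl⟩
  rw [← hE] at hc ⊢
  have e3 : P K w z * Mg K H w z * P K w.reverse z =
      (1 / 2 : ℂ) • (H * (P K w z * P K w.reverse z) + (P K w z * P K w.reverse z) * H) +
        P K w z * Bg K w z * P K w.reverse z := by
    unfold Mg
    rw [mul_add, add_mul, mul_smul_comm, smul_mul_assoc, mul_add, add_mul, e1]
    congr 3
    · rw [mul_assoc]
    · rw [mul_assoc, e2, mul_assoc]
  calc E * P K w z * Mg K H w z * (P K w.reverse z * E)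
      = E * (P K w z * Mg K H w z * P K w.reverse z) * E := by simp only [mul_assoc]
    _ = _ := by
      rw [e3, mul_add, add_mul, mul_smul_comm, smul_mul_assoc, mul_add, add_mul]
      have e4 : E * (H * (P K w z * P K w.reverse z)) * E =
          E * H * (P K w z * P K w.reverse z) * E := by simp only [mul_assoc]
      have e5 : E * (P K w z * P K w.reverse z * H) * E =
          E * (P K w z * P K w.reverse z) * (E * H) := by
        rw [hc]
        simp only [mul_assoc]
      rw [e4, e5]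
      simp only [smul_mul_assoc, mul_smul_comm, smul_add, add_mul]
      abel

/-- the generator vanishes to order `2 p` -/
theorem Mg_van {p : ℕ} {H : 𝔸} {w : List (Fin c × ℝ)} {γ : 𝔸}
    (h : Ord (2 * p + 1) (fun z => P K (w ++ w.reverse) z) H 1 γ) :
    ∃ r : ℂ → 𝔸, Differentiable ℂ r ∧ ∀ z, Mg K H w z = z ^ (2 * p) • r z := by
  obtain ⟨g, hg, hf, -⟩ := h
  have hE1 : Differentiable ℂ (fun z : ℂ => NormedSpace.exp ((1 / 2 * z) • H)) := exp_diff _ _
  obtain ⟨gh, hgh⟩ : ∃ gh : ℂ → 𝔸, gh = fun z : ℂ => NormedSpace.exp ((1 / 2 * z) • H) * g z *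
    NormedSpace.exp ((1 / 2 * z) • H) := ⟨_, rfl⟩
  have hghd : Differentiable ℂ gh := by
    rw [hgh]
    exact (hE1.mul hg).mul hE1
  have hX : ∀ z, NormedSpace.exp ((1 / 2 * z) • H) * (P K w z * P K w.reverse z) *
      NormedSpace.exp ((1 / 2 * z) • H) = 1 + z ^ (2 * p + 1) • gh z := by
    intro z
    have h1 := hf z
    simp only [P_append] at h1
    rw [h1, hgh]
    simp only [mul_add, add_mul, mul_smul_comm, smul_mul_assoc]
    congr 1
    rw [← exp_add_smul, ← exp_add_smul]
    have : (1 / 2 * z + -(1 * z) + 1 / 2 * z) = 0 := by ring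
    rw [this, zero_smul, NormedSpace.exp_zero]
  have hder : ∀ z, HasDerivAt (fun z : ℂ => NormedSpace.exp ((1 / 2 * z) • H) *
      (P K w z * P K w.reverse z) * NormedSpace.exp ((1 / 2 * z) • H))
      (z ^ (2 * p) • (((2 * p + 1 : ℕ) : ℂ) • gh z + z • deriv gh z)) z := by
    intro z
    have h1 : (fun z : ℂ => NormedSpace.exp ((1 / 2 * z) • H) *
      (P K w z * P K w.reverse z) * NormedSpace.exp ((1 / 2 * z) • H)) =
      fun z => 1 + z ^ (2 * p + 1) • gh z := by
      funext z
      exact hX z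
    rw [h1]
    have h2 : HasDerivAt (fun z => 1 + z ^ (2 * p + 1) • gh z) _ z :=
      ((hasDerivAt_pow (2 * p + 1) z).smul (hghd z).hasDerivAt).const_add (1 : 𝔸)
    refine h2.congr_deriv ?_
    rw [Nat.add_sub_cancel, smul_add, smul_smul, smul_smul, pow_succ, add_comm]
    congr 2
    ring
  obtain ⟨W1, hW1⟩ : ∃ W1 : ℂ → 𝔸, W1 = fun z : ℂ => P K w.reverse (-z) *
    NormedSpace.exp (((-(1 / 2)) * z) • H) := ⟨_, rfl⟩
  obtain ⟨W2, hW2⟩ : ∃ W2 : ℂ → 𝔸, W2 = fun z : ℂ => NormedSpace.exp (((-(1 / 2)) * z) • H) *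
    P K w (-z) := ⟨_, rfl⟩
  refine ⟨fun z => W1 z * (((2 * p + 1 : ℕ) : ℂ) • gh z + z • deriv gh z) * W2 z, ?_, ?_⟩
  · have hd1 : Differentiable ℂ W1 := by
      rw [hW1]
      exact ((P_diff K w.reverse).comp differentiable_neg).mul (exp_diff _ _)
    have hd2 : Differentiable ℂ W2 := by
      rw [hW2]
      exact (exp_diff _ _).mul ((P_diff K w).comp differentiable_neg)
    have hd3 : Differentiable ℂ (fun z => ((2 * p + 1 : ℕ) : ℂ) • gh z + z • deriv gh z) :=
      (hghd.const_smul ((2 * p + 1 : ℕ) : ℂ)).add (differentiable_id.smul hghd.deriv)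
    exact (hd1.mul hd3).mul hd2
  · intro z
    have h1 := (hasDerivAt_X K H w z).unique (hder z)
    have e1 : W1 z * (NormedSpace.exp ((1 / 2 * z) • H) * P K w z) = 1 := by
      rw [hW1]
      simp only
      have h2 := exp_neg_mul (1 / 2 * z) H
      rw [← neg_mul] at h2
      calc P K w.reverse (-z) * NormedSpace.exp ((-(1 / 2) * z) • H) *
            (NormedSpace.exp ((1 / 2 * z) • H) * P K w z)
          = P K w.reverse (-z) * ((NormedSpace.exp ((-(1 / 2) * z) • H) *
            NormedSpace.exp ((1 / 2 * z) • H)) * P K w z) := by simp only [mul_assoc]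
        _ = 1 := by rw [h2, one_mul, P_reverse_mul]
    have e2 : (P K w.reverse z * NormedSpace.exp ((1 / 2 * z) • H)) * W2 z = 1 := by
      rw [hW2]
      simp only
      have h2 := exp_mul_neg (1 / 2 * z) H
      rw [← neg_mul] at h2
      have h3 := P_mul_reverse K w.reverse z
      rw [List.reverse_reverse] at h3
      calc P K w.reverse z * NormedSpace.exp ((1 / 2 * z) • H) *
            (NormedSpace.exp ((-(1 / 2) * z) • H) * P K w (-z))
          = P K w.reverse z * ((NormedSpace.exp ((1 / 2 * z) • H) *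
            NormedSpace.exp ((-(1 / 2) * z) • H)) * P K w (-z)) := by simp only [mul_assoc]
        _ = 1 := by rw [h2, one_mul, h3]
    calc Mg K H w z = (W1 z * (NormedSpace.exp ((1 / 2 * z) • H) * P K w z)) * Mg K H w z *
          ((P K w.reverse z * NormedSpace.exp ((1 / 2 * z) • H)) * W2 z) := by
          rw [e1, e2, one_mul, mul_one]
      _ = W1 z * (NormedSpace.exp ((1 / 2 * z) • H) * P K w z * Mg K H w z *
          (P K w.reverse z * NormedSpace.exp ((1 / 2 * z) • H))) * W2 z := by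
          simp only [mul_assoc]
      _ = _ := by
          rw [h1, mul_smul_comm, smul_mul_assoc]

end gen

section bound

variable {c : ℕ} {I : Type} [Fintype I] [DecidableEq I]
variable {𝔸 : Type} [NormedRing 𝔸] [NormedAlgebra ℂ 𝔸] [CompleteSpace 𝔸] [NormOneClass 𝔸]
variable (h : I → 𝔸) (col : I → Fin c) (nb : I → Finset I)

/-- the local bound -/
noncomputable def bd (s : ℕ) (l : List (Fin c × ℝ)) : ℝ :=
  Real.exp (2 * wl l * (s * (1 + s) ^ l.length))

theorem bd_nonneg (s : ℕ) (l : List (Fin c × ℝ)) : 0 ≤ bd s l := (Real.exp_pos _).le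

theorem bd_mono (s : ℕ) (b : Fin c × ℝ) (l : List (Fin c × ℝ)) : bd s l ≤ bd s (b :: l) := by
  unfold bd
  apply Real.exp_le_exp.2
  rw [wl_cons, List.length_cons, pow_succ]
  have h0 := wl_nonneg l
  have h1 : (0 : ℝ) ≤ s := by positivity
  have h2 : (1 : ℝ) ≤ 1 + s := by linarith
  have h3 : (0 : ℝ) ≤ (1 + s : ℝ) ^ l.length := by positivity
  have h4 : 0 ≤ |b.2| := abs_nonneg _
  have h5 : s * (1 + s : ℝ) ^ l.length ≤ s * ((1 + s : ℝ) ^ l.length * (1 + s)) := by
    apply mul_le_mul_of_nonneg_left _ h1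
    exact le_mul_of_one_le_right h3 h2
  have h6 : 2 * wl l ≤ 2 * (|b.2| + wl l) := by linarith
  exact mul_le_mul h6 h5 (by positivity) (by positivity)

theorem sum_KK : ∑ b, KK h col b = ∑ i, h i := by
  unfold KK
  exact Finset.sum_fiberwise _ _ _

theorem norm_tau_single {s : ℕ} (hs : ∀ i, (nb i).card ≤ s) (hn : ∀ i, ‖h i‖ ≤ 1)
    (hcol : ∀ i j, col i = col j → Commute (h i) (h j))
    (hnb : ∀ i j, j ∉ nb i → Commute (h i) (h j)) {z : ℂ} (hz : ‖z‖ ≤ 1)
    (l : List (Fin c × ℝ)) (i : I) : ‖tau (KK h col) l z (h i)‖ ≤ bd s l := by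
  refine (norm_tau_le h col nb hs hn hcol hnb z l (h i) (nb i)
    (fun j hj => (hnb i j hj).symm)).trans ?_
  unfold bd
  have h0 := wl_nonneg l
  have h1 : (0 : ℝ) ≤ s := by positivity
  have h2 : ((nb i).card : ℝ) ≤ s := by exact_mod_cast hs i
  have hz0 := norm_nonneg z
  calc Real.exp (2 * ‖z‖ * wl l * (((nb i).card : ℝ) * (1 + s) ^ l.length)) * ‖h i‖
      ≤ Real.exp (2 * 1 * wl l * ((s : ℝ) * (1 + s) ^ l.length)) * 1 := by
        gcongr
        exact hn i
    _ = _ := by rw [mul_one, mul_one]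

theorem norm_tau_subset {s : ℕ} (hs : ∀ i, (nb i).card ≤ s) (hn : ∀ i, ‖h i‖ ≤ 1)
    (hcol : ∀ i j, col i = col j → Commute (h i) (h j))
    (hnb : ∀ i j, j ∉ nb i → Commute (h i) (h j)) {z : ℂ} (hz : ‖z‖ ≤ 1)
    (l : List (Fin c × ℝ)) (A : Finset I) :
    ‖tau (KK h col) l z (∑ i ∈ A, h i)‖ ≤ Fintype.card I * bd s l := by
  rw [tau_sum]
  refine (norm_sum_le _ _).trans ?_
  refine (Finset.sum_le_card_nsmul _ _ (bd s l)
    (fun i _ => norm_tau_single h col nb hs hn hcol hnb hz l i)).trans ?_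
  rw [nsmul_eq_mul]
  apply mul_le_mul_of_nonneg_right _ (bd_nonneg s l)
  exact_mod_cast Finset.card_le_univ A

theorem norm_Bg_le {s : ℕ} (hs : ∀ i, (nb i).card ≤ s) (hn : ∀ i, ‖h i‖ ≤ 1)
    (hcol : ∀ i j, col i = col j → Commute (h i) (h j))
    (hnb : ∀ i j, j ∉ nb i → Commute (h i) (h j)) {z : ℂ} (hz : ‖z‖ ≤ 1)
    (l : List (Fin c × ℝ)) :
    ‖Bg (KK h col) l z‖ ≤ 2 * wl l * (Fintype.card I * bd s l) := by
  induction l with
  | nil =>
    have : Bg (KK h col) [] z = 0 := rfl
    rw [this, norm_zero]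
    simp [wl]
  | cons b l ih =>
    have hB : Bg (KK h col) (b :: l) z = Bg (KK h col) l z -
        (b.2 : ℂ) • (tau (KK h col) l z (KK h col b.1) + tau (KK h col) l (-z) (KK h col b.1)) :=
      rfl
    have hz' : ‖-z‖ ≤ 1 := by rwa [norm_neg]
    have h1 := norm_tau_subset h col nb hs hn hcol hnb hz l (Finset.univ.filter
      (fun i => col i = b.1))
    have h2 := norm_tau_subset h col nb hs hn hcol hnb hz' l (Finset.univ.filter
      (fun i => col i = b.1))
    have h3 : ‖(b.2 : ℂ) • (tau (KK h col) l z (KK h col b.1) +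
        tau (KK h col) l (-z) (KK h col b.1))‖ ≤ |b.2| * (2 * (Fintype.card I * bd s l)) := by
      rw [norm_smul, Complex.norm_real, Real.norm_eq_abs]
      apply mul_le_mul_of_nonneg_left _ (abs_nonneg _)
      refine (norm_add_le _ _).trans ?_
      unfold KK at *
      linarith
    rw [hB, wl_cons]
    refine (norm_sub_le _ _).trans ?_
    have h4 := bd_mono s b l
    have h5 : (Fintype.card I : ℝ) * bd s l ≤ Fintype.card I * bd s (b :: l) :=
      mul_le_mul_of_nonneg_left h4 (by positivity)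
    have h6 := wl_nonneg l
    have h7 : 0 ≤ |b.2| := abs_nonneg _
    have h8 : (|b.2| + wl l) * ((Fintype.card I : ℝ) * bd s l) ≤
        (|b.2| + wl l) * (Fintype.card I * bd s (b :: l)) :=
      mul_le_mul_of_nonneg_left h5 (by positivity)
    nlinarith

/-- the constant -/
noncomputable def cst (s : ℕ) (w : List (Fin c × ℝ)) : ℝ := (1 + 2 * wl w) * bd s w

theorem cst_nonneg (s : ℕ) (w : List (Fin c × ℝ)) : 0 ≤ cst s w := by
  unfold cst
  have := wl_nonneg w
  have := bd_nonneg s w
  positivity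

theorem norm_Mg_le {s : ℕ} (hs : ∀ i, (nb i).card ≤ s) (hn : ∀ i, ‖h i‖ ≤ 1)
    (hcol : ∀ i j, col i = col j → Commute (h i) (h j))
    (hnb : ∀ i j, j ∉ nb i → Commute (h i) (h j)) {z : ℂ} (hz : ‖z‖ ≤ 1)
    (w : List (Fin c × ℝ)) :
    ‖Mg (KK h col) (∑ i, h i) w z‖ ≤ Fintype.card I * cst s w := by
  unfold Mg
  have hz' : ‖-z‖ ≤ 1 := by rwa [norm_neg]
  have h1 := norm_tau_subset h col nb hs hn hcol hnb hz w Finset.univ
  have h2 := norm_tau_subset h col nb hs hn hcol hnb hz' w Finset.univ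
  have h3 := norm_Bg_le h col nb hs hn hcol hnb hz w
  have h4 : ‖(1 / 2 : ℂ) • (tau (KK h col) w z (∑ i, h i) +
      tau (KK h col) w (-z) (∑ i, h i))‖ ≤ Fintype.card I * bd s w := by
    rw [norm_smul]
    have h5 : ‖(1 / 2 : ℂ)‖ = 1 / 2 := by norm_num
    rw [h5]
    have h6 := norm_add_le (tau (KK h col) w z (∑ i, h i)) (tau (KK h col) w (-z) (∑ i, h i))
    linarith
  refine (norm_add_le _ _).trans ?_
  unfold cst
  linarith

/-- the generator is small of order `2 p`, uniformly in the number of terms -/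
theorem norm_Mg_le_pow {s : ℕ} (hs : ∀ i, (nb i).card ≤ s) (hn : ∀ i, ‖h i‖ ≤ 1)
    (hcol : ∀ i j, col i = col j → Commute (h i) (h j))
    (hnb : ∀ i j, j ∉ nb i → Commute (h i) (h j)) {z : ℂ} (hz : ‖z‖ ≤ 1) {p : ℕ}
    {w : List (Fin c × ℝ)} (hw : Good c p w) :
    ‖Mg (KK h col) (∑ i, h i) w z‖ ≤ Fintype.card I * cst s w * ‖z‖ ^ (2 * p) := by
  obtain ⟨γ, hγ⟩ := hw 𝔸 (KK h col)
  rw [sum_KK] at hγ
  obtain ⟨r, hr, hM⟩ := Mg_van (KK h col) hγ
  have h1 : ‖r z‖ ≤ Fintype.card I * cst s w := by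
    apply Complex.norm_le_of_forall_mem_frontier_norm_le (U := Metric.ball (0 : ℂ) 1)
      Metric.isBounded_ball hr.diffContOnCl
    · intro y hy
      rw [frontier_ball (0 : ℂ) one_ne_zero, mem_sphere_zero_iff_norm] at hy
      have h2 := hM y
      have h3 : ‖Mg (KK h col) (∑ i, h i) w y‖ = ‖r y‖ := by
        rw [h2, norm_smul, norm_pow, hy, one_pow, one_mul]
      rw [← h3]
      exact norm_Mg_le h col nb hs hn hcol hnb hy.le w
    · rw [closure_ball (0 : ℂ) one_ne_zero, mem_closedBall_zero_iff]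
      exact hz
  rw [hM z, norm_smul, norm_pow, mul_comm]
  exact mul_le_mul_of_nonneg_right h1 (by positivity)

end bound

end Pool.Agent.Hhelper17.PE
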