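import Pool.Agent.Hhelper17.PE.Maj
import Pool.Agent.Hhelper17.PE.Gen

/-!
The generator for products of exponentials of sums of local terms that need not commute.
-/

set_option autoImplicit false
set_option linter.unusedSectionVars false

open scoped BigOperators

namespace Pool.Agent.Hhelper17.PE

section bound

variable {c : ℕ} {I : Type} [Fintype I] [DecidableEq I]
variable {𝔸 : Type} [NormedRing 𝔸] [NormedAlgebra ℂ 𝔸] [CompleteSpace 𝔸]
variable (h : I → 𝔸) (A : Fin c → Finset I) (nb : I → Finset I)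

theorem norm_tau_set {s : ℕ} (hs : ∀ i, (nb i).card ≤ s) (hn : ∀ i, ‖h i‖ ≤ 1)
    (hnb : ∀ i j, j ∉ nb i → Commute (h i) (h j)) (l : List (Fin c × ℝ)) {z : ℂ}
    (hz : ‖z‖ * wl l * (2 * s) ≤ 1 / 2) (B : Finset I) :
    ‖tau (fun b => ∑ i ∈ A b, h i) l z (∑ i ∈ B, h i)‖ ≤ Fintype.card I * 2 := by
  rw [tau_sum]
  refine (norm_sum_le _ _).trans ?_
  refine (Finset.sum_le_card_nsmul _ _ 2
    (fun i _ => norm_tau_term h A nb hs hn hnb l hz i)).trans ?_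
  rw [nsmul_eq_mul]
  apply mul_le_mul_of_nonneg_right _ (by norm_num)
  exact_mod_cast Finset.card_le_univ B

theorem norm_Bg_set {s : ℕ} (hs : ∀ i, (nb i).card ≤ s) (hn : ∀ i, ‖h i‖ ≤ 1)
    (hnb : ∀ i j, j ∉ nb i → Commute (h i) (h j)) {z : ℂ} (l : List (Fin c × ℝ))
    (hz : ‖z‖ * wl l * (2 * s) ≤ 1 / 2) :
    ‖Bg (fun b => ∑ i ∈ A b, h i) l z‖ ≤ 2 * wl l * (Fintype.card I * 2) := by
  induction l with
  | nil =>
    have : Bg (fun b => ∑ i ∈ A b, h i) [] z = 0 := rfl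
    rw [this, norm_zero]
    simp [wl]
  | cons b l ih =>
    have hB : Bg (fun b => ∑ i ∈ A b, h i) (b :: l) z = Bg (fun b => ∑ i ∈ A b, h i) l z -
        (b.2 : ℂ) • (tau (fun b => ∑ i ∈ A b, h i) l z (∑ i ∈ A b.1, h i) +
          tau (fun b => ∑ i ∈ A b, h i) l (-z) (∑ i ∈ A b.1, h i)) := rfl
    have hzl : ‖z‖ * wl l * (2 * s) ≤ 1 / 2 := by
      refine le_trans ?_ hz
      rw [wl_cons]
      have h1 := abs_nonneg b.2
      have h2 := norm_nonneg z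
      gcongr
      linarith
    have hzl' : ‖-z‖ * wl l * (2 * s) ≤ 1 / 2 := by rwa [norm_neg]
    have h1 := norm_tau_set h A nb hs hn hnb l hzl (A b.1)
    have h2 := norm_tau_set h A nb hs hn hnb l hzl' (A b.1)
    have h3 : ‖(b.2 : ℂ) • (tau (fun b => ∑ i ∈ A b, h i) l z (∑ i ∈ A b.1, h i) +
        tau (fun b => ∑ i ∈ A b, h i) l (-z) (∑ i ∈ A b.1, h i))‖ ≤
        |b.2| * (2 * (Fintype.card I * 2)) := by
      rw [norm_smul, Complex.norm_real, Real.norm_eq_abs]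
      apply mul_le_mul_of_nonneg_left _ (abs_nonneg _)
      refine (norm_add_le _ _).trans ?_
      linarith
    rw [hB, wl_cons]
    refine (norm_sub_le _ _).trans ?_
    have h6 := ih hzl
    linarith

/-- bound of the generator -/
theorem norm_Mg_set {s : ℕ} (hs : ∀ i, (nb i).card ≤ s) (hn : ∀ i, ‖h i‖ ≤ 1)
    (hnb : ∀ i j, j ∉ nb i → Commute (h i) (h j)) {z : ℂ} (w : List (Fin c × ℝ))
    (hz : ‖z‖ * wl w * (2 * s) ≤ 1 / 2) :
    ‖Mg (fun b => ∑ i ∈ A b, h i) (∑ i, h i) w z‖ ≤ Fintype.card I * (2 + 4 * wl w) := by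
  unfold Mg
  have hz' : ‖-z‖ * wl w * (2 * s) ≤ 1 / 2 := by rwa [norm_neg]
  have h1 := norm_tau_set h A nb hs hn hnb w hz Finset.univ
  have h2 := norm_tau_set h A nb hs hn hnb w hz' Finset.univ
  have h3 := norm_Bg_set h A nb hs hn hnb w hz
  have h4 : ‖(1 / 2 : ℂ) • (tau (fun b => ∑ i ∈ A b, h i) w z (∑ i, h i) +
      tau (fun b => ∑ i ∈ A b, h i) w (-z) (∑ i, h i))‖ ≤ Fintype.card I * 2 := by
    rw [norm_smul]
    have h5 : ‖(1 / 2 : ℂ)‖ = 1 / 2 := by norm_num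
    rw [h5]
    have h6 := norm_add_le (tau (fun b => ∑ i ∈ A b, h i) w z (∑ i, h i))
      (tau (fun b => ∑ i ∈ A b, h i) w (-z) (∑ i, h i))
    linarith
  refine (norm_add_le _ _).trans ?_
  linarith

/-- the generator is exponentially small in the order of vanishing -/
theorem norm_Mg_pow {s : ℕ} (hs : ∀ i, (nb i).card ≤ s) (hn : ∀ i, ‖h i‖ ≤ 1)
    (hnb : ∀ i j, j ∉ nb i → Commute (h i) (h j)) {p : ℕ} {w : List (Fin c × ℝ)} {γ : 𝔸}
    (hw : Ord (2 * p + 1) (fun z => P (fun b => ∑ i ∈ A b, h i) (w ++ w.reverse) z)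
      (∑ i, h i) 1 γ) {R : ℝ} (hR : 0 < R) (hRw : R * wl w * (2 * s) ≤ 1 / 2) {z : ℂ}
    (hz : ‖z‖ ≤ R) :
    ‖Mg (fun b => ∑ i ∈ A b, h i) (∑ i, h i) w z‖ ≤
      Fintype.card I * (2 + 4 * wl w) * (‖z‖ / R) ^ (2 * p) := by
  obtain ⟨r, hr, hM⟩ := Mg_van (fun b => ∑ i ∈ A b, h i) hw
  have hRp : 0 < R ^ (2 * p) := by positivity
  have h1 : ‖r z‖ ≤ Fintype.card I * (2 + 4 * wl w) / R ^ (2 * p) := by
    apply Complex.norm_le_of_forall_mem_frontier_norm_le (U := Metric.ball (0 : ℂ) R)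
      Metric.isBounded_ball hr.diffContOnCl
    · intro y hy
      rw [frontier_ball (0 : ℂ) hR.ne', mem_sphere_zero_iff_norm] at hy
      have h2 := hM y
      have h3 : ‖Mg (fun b => ∑ i ∈ A b, h i) (∑ i, h i) w y‖ = R ^ (2 * p) * ‖r y‖ := by
        rw [h2, norm_smul, norm_pow, hy]
      rw [le_div_iff₀ hRp, mul_comm, ← h3]
      exact norm_Mg_set h A nb hs hn hnb w (by rw [hy]; exact hRw)
    · rw [closure_ball (0 : ℂ) hR.ne', mem_closedBall_zero_iff]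
      exact hz
  rw [hM z, norm_smul, norm_pow, div_pow]
  calc ‖z‖ ^ (2 * p) * ‖r z‖ ≤ ‖z‖ ^ (2 * p) * (Fintype.card I * (2 + 4 * wl w) / R ^ (2 * p)) :=
        mul_le_mul_of_nonneg_left h1 (by positivity)
    _ = _ := by ring

end bound

end Pool.Agent.Hhelper17.PE
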