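import Pool.Agent.Hhelper17.PE.Near
import Pool.Agent.Hhelper17.PE.Gen

/-!
Level functions: the cut lemma for sums of local terms, and the product of nine exponentials.
-/

set_option autoImplicit false
set_option linter.unusedSectionVars false

open scoped BigOperators

namespace Pool.Agent.Hhelper17.PE

section level

variable {I : Type} [Fintype I] [DecidableEq I]
variable {𝔸 : Type} [NormedRing 𝔸] [NormedAlgebra ℂ 𝔸] [CompleteSpace 𝔸]
variable (h : I → 𝔸)

/-- terms whose levels differ by more than one commute -/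
def Lev (lam : I → ℕ) : Prop := ∀ i j, lam i + 1 < lam j → Commute (h i) (h j)

variable {h}

theorem ad_level {lam : I → ℕ} (hl : Lev h lam) (S : Finset I) {k : ℕ} {x : 𝔸}
    (hx : ∀ i, lam i < k + 1 → Commute (h i) x) :
    ∀ i, lam i < k → Commute (h i) (ad (∑ j ∈ S, h j) x) := by
  intro i hi
  unfold ad
  rw [Finset.sum_mul, Finset.mul_sum, ← Finset.sum_sub_distrib]
  apply Commute.sum_right
  intro j _
  by_cases hj : lam j < k + 1
  · have h1 := hx j hj
    rw [h1.eq, sub_self]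
    exact Commute.zero_right _
  · have h1 : Commute (h i) (h j) := hl i j (by omega)
    have h2 : Commute (h i) x := hx i (by omega)
    exact (h1.mul_right h2).sub_right (h2.mul_right h1)

theorem iter_level {lam : I → ℕ} (hl : Lev h lam) (m : ℕ) (S T : Finset I)
    (hT : ∀ j ∈ T, m ≤ lam j) : ∀ n i, lam i + n + 1 < m →
      Commute (h i) ((ad (∑ j ∈ S, h j))^[n] (∑ j ∈ T, h j)) := by
  intro n
  induction n with
  | zero =>
    intro i hi
    rw [Function.iterate_zero, id]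
    apply Commute.sum_right
    intro j hj
    have := hT j hj
    exact hl i j (by omega)
  | succ n ih =>
    intro i hi
    rw [Function.iterate_succ_apply']
    refine ad_level hl S (k := m - (n + 1) - 1) (fun j hj => ?_) i (by omega)
    exact ih j (by omega)

/-- the cut lemma for local terms -/
theorem cut_level {lam : I → ℕ} (hl : Lev h lam) {m : ℕ} (hm : 1 ≤ m) (S : Finset I) :
    Near (m + 1) (fun z => NormedSpace.exp ((-z) • ∑ i ∈ S.filter (fun i => 0 < lam i), h i) *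
        NormedSpace.exp (z • ∑ i ∈ S.filter (fun i => 0 < lam i ∧ lam i < m), h i) *
        NormedSpace.exp ((-z) • ∑ i ∈ S.filter (fun i => lam i < m), h i))
      (fun z => NormedSpace.exp ((-z) • ∑ i ∈ S, h i)) := by
  obtain ⟨S0, hS0⟩ : ∃ S0, S0 = S.filter (fun i => lam i = 0) := ⟨_, rfl⟩
  obtain ⟨Sa, hSa⟩ : ∃ Sa, Sa = S.filter (fun i => 0 < lam i ∧ lam i < m) := ⟨_, rfl⟩
  obtain ⟨Sr, hSr⟩ : ∃ Sr, Sr = S.filter (fun i => m ≤ lam i) := ⟨_, rfl⟩
  have e1 : ∑ i ∈ S.filter (fun i => 0 < lam i), h i = ∑ i ∈ Sa, h i + ∑ i ∈ Sr, h i := by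
    rw [hSa, hSr, ← Finset.sum_filter_add_sum_filter_not (S.filter (fun i => 0 < lam i))
      (fun i => lam i < m), Finset.filter_filter, Finset.filter_filter]
    congr 1
    apply Finset.sum_congr _ (fun _ _ => rfl)
    ext i
    simp only [Finset.mem_filter]
    constructor
    · rintro ⟨h1, h2, h3⟩; exact ⟨h1, by omega⟩
    · rintro ⟨h1, h2⟩; exact ⟨h1, by omega, by omega⟩
  have e2 : ∑ i ∈ S.filter (fun i => lam i < m), h i = ∑ i ∈ S0, h i + ∑ i ∈ Sa, h i := by
    rw [hSa, hS0, ← Finset.sum_filter_add_sum_filter_not (S.filter (fun i => lam i < m))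
      (fun i => lam i = 0), Finset.filter_filter, Finset.filter_filter]
    congr 1
    · apply Finset.sum_congr _ (fun _ _ => rfl)
      ext i
      simp only [Finset.mem_filter]
      constructor
      · rintro ⟨h1, h2, h3⟩; exact ⟨h1, h3⟩
      · rintro ⟨h1, h2⟩; exact ⟨h1, by omega, h2⟩
    · apply Finset.sum_congr _ (fun _ _ => rfl)
      ext i
      simp only [Finset.mem_filter]
      constructor
      · rintro ⟨h1, h2, h3⟩; exact ⟨h1, by omega, h2⟩
      · rintro ⟨h1, h2, h3⟩; exact ⟨h1, h3, by omega⟩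
  have e3 : ∑ i ∈ S, h i = ∑ i ∈ S0, h i + ∑ i ∈ Sa, h i + ∑ i ∈ Sr, h i := by
    rw [add_assoc, ← e1, hS0, ← Finset.sum_filter_add_sum_filter_not S (fun i => lam i = 0)]
    congr 1
    apply Finset.sum_congr _ (fun _ _ => rfl)
    ext i
    simp only [Finset.mem_filter]
    constructor
    · rintro ⟨h1, h2⟩; exact ⟨h1, by omega⟩
    · rintro ⟨h1, h2⟩; exact ⟨h1, by omega⟩
  rw [← hSa, e1, e2, e3]
  have h1 := cut (∑ i ∈ S0, h i) (∑ i ∈ Sa, h i) (∑ i ∈ Sr, h i) (m - 1) (by
    intro n hn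
    apply Commute.sum_left
    intro i hi
    rw [hS0, Finset.mem_filter] at hi
    exact iter_level hl m Sa Sr (fun j hj => by
      rw [hSr, Finset.mem_filter] at hj
      exact hj.2) n i (by omega))
  have h2 : m - 1 + 2 = m + 1 := by omega
  rw [h2] at h1
  exact h1

/-- the three parts of a set of terms -/
def sel (m : ℕ) (lam : I → ℕ) (S : Finset I) (a : Fin 3) : Finset I :=
  if a = 0 then S.filter (fun i => 0 < lam i)
  else if a = 1 then S.filter (fun i => 0 < lam i ∧ lam i < m)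
  else S.filter (fun i => lam i < m)

/-- first index of a layer -/
def ix1 : Fin 9 → Fin 3 := ![0, 0, 0, 1, 1, 1, 2, 2, 2]

/-- second index of a layer -/
def ix2 : Fin 9 → Fin 3 := ![0, 1, 2, 0, 1, 2, 0, 1, 2]

/-- the nine sets of terms -/
def lay (m : ℕ) (lam1 lam2 : I → ℕ) (k : Fin 9) : Finset I :=
  sel m lam2 (sel m lam1 Finset.univ (ix1 k)) (ix2 k)

/-- the product of nine exponentials -/
noncomputable def w9 : List (Fin 9 × ℝ) :=
  [(0, 1 / 2), (1, -(1 / 2)), (2, 1 / 2), (3, -(1 / 2)), (4, 1 / 2), (5, -(1 / 2)), (6, 1 / 2),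
    (7, -(1 / 2)), (8, 1 / 2)]

theorem cut_sel {lam : I → ℕ} (hl : Lev h lam) {m : ℕ} (hm : 1 ≤ m) (S : Finset I) (u : ℂ) :
    Near (m + 1) (fun z => NormedSpace.exp ((-(u * z)) • ∑ i ∈ sel m lam S 0, h i) *
        NormedSpace.exp ((u * z) • ∑ i ∈ sel m lam S 1, h i) *
        NormedSpace.exp ((-(u * z)) • ∑ i ∈ sel m lam S 2, h i))
      (fun z => NormedSpace.exp ((-(u * z)) • ∑ i ∈ S, h i)) :=
  (cut_level hl hm S).scale u

theorem exp_diff' (a : ℂ) (H : 𝔸) :
    Differentiable ℂ (fun z : ℂ => NormedSpace.exp ((-(a * z)) • H)) := by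
  have := exp_diff (-a) H
  simpa only [neg_mul] using this

/-- the nine exponentials agree with `exp (-(z / 2) H)` to order `m + 1` -/
theorem near_nine {lam1 lam2 : I → ℕ} (h1 : Lev h lam1) (h2 : Lev h lam2) {m : ℕ} (hm : 1 ≤ m) :
    Near (m + 1) (fun z => P (fun k => ∑ i ∈ lay m lam1 lam2 k, h i) w9 z)
      (fun z => NormedSpace.exp ((-(1 / 2 * z)) • ∑ i, h i)) := by
  obtain ⟨T, hT⟩ : ∃ T : Fin 3 → Finset I, T = sel m lam1 Finset.univ := ⟨_, rfl⟩
  have c0 := cut_sel h2 hm (T 0) (1 / 2)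
  have c1 := cut_sel h2 hm (T 1) (-(1 / 2))
  have c2 := cut_sel h2 hm (T 2) (1 / 2)
  have cc := cut_sel h1 hm Finset.univ (1 / 2)
  rw [← hT] at cc
  have d0 := exp_diff' (1 / 2) (∑ i ∈ T 0, h i)
  have d1 := exp_diff' (-(1 / 2)) (∑ i ∈ T 1, h i)
  have d2 := exp_diff' (1 / 2) (∑ i ∈ T 2, h i)
  have e1 := Near.mul (d0.mul d1) d2 (Near.mul d0 d1 c0 c1) c2
  have e2 : Near (m + 1) _ (fun z => NormedSpace.exp ((-(1 / 2 * z)) • ∑ i, h i)) :=
    e1.trans (cc.congr (fun z => by
      simp only [Pi.mul_apply, neg_mul, neg_neg]) (fun z => rfl))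
  refine e2.congr (fun z => ?_) (fun z => rfl)
  have hl : ∀ k : Fin 9, lay m lam1 lam2 k = sel m lam2 (T (ix1 k)) (ix2 k) := by
    intro k
    rw [hT]
    rfl
  simp only [w9, P_cons, P_nil, mul_one, hl]
  simp only [ix1, ix2]
  push_cast
  simp only [mul_assoc, neg_mul, neg_neg]

end level

end Pool.Agent.Hhelper17.PE
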