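import Pool.Agent.Hhelper17.PE.Mat

/-!
The two-sided bound of `W W^*`, `W = exp (t H / 2) V`, by Gronwall's inequality, and log-convex
sequences.
-/

set_option autoImplicit false
set_option linter.unusedSectionVars false

open scoped BigOperators Matrix.Norms.L2Operator
open Matrix Pool.Agent.Hhelper96.PEPS

namespace Pool.Agent.Hhelper17.PE

section real

theorem gron {f f' : ℝ → ℝ} {lam t : ℝ} (ht : 0 ≤ t) (hd : ∀ s, HasDerivAt f (f' s) s)
    (hb : ∀ s, 0 ≤ s → s ≤ t → |f' s| ≤ lam * f s) :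
    Real.exp (-(lam * t)) * f 0 ≤ f t ∧ f t ≤ Real.exp (lam * t) * f 0 := by
  have hexp : ∀ a s : ℝ, HasDerivAt (fun s => Real.exp (a * s)) (Real.exp (a * s) * a) s := by
    intro a s
    have h1 : HasDerivAt (fun s : ℝ => a * s) a s := by
      simpa using (hasDerivAt_id s).const_mul a
    exact h1.exp
  have hg : ∀ a s : ℝ, HasDerivAt (fun s => Real.exp (a * s) * f s)
      (Real.exp (a * s) * a * f s + Real.exp (a * s) * f' s) s := by
    intro a s
    exact (hexp a s).mul (hd s)
  constructor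
  · have hm : MonotoneOn (fun s => Real.exp (lam * s) * f s) (Set.Icc 0 t) := by
      apply monotoneOn_of_deriv_nonneg (convex_Icc 0 t)
      · exact fun s _ => (hg lam s).continuousAt.continuousWithinAt
      · exact fun s _ => (hg lam s).differentiableAt.differentiableWithinAt
      · intro s hs
        rw [interior_Icc] at hs
        rw [(hg lam s).deriv]
        have h1 := hb s hs.1.le hs.2.le
        have h2 := (abs_le.1 h1).1
        have h3 := Real.exp_pos (lam * s)
        nlinarith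
    have h1 := hm (Set.left_mem_Icc.2 ht) (Set.right_mem_Icc.2 ht) ht
    simp only [mul_zero, Real.exp_zero, one_mul] at h1
    rw [Real.exp_neg, inv_mul_le_iff₀ (Real.exp_pos _)]
    exact h1
  · have hm : AntitoneOn (fun s => Real.exp ((-lam) * s) * f s) (Set.Icc 0 t) := by
      apply antitoneOn_of_deriv_nonpos (convex_Icc 0 t)
      · exact fun s _ => (hg (-lam) s).continuousAt.continuousWithinAt
      · exact fun s _ => (hg (-lam) s).differentiableAt.differentiableWithinAt
      · intro s hs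
        rw [interior_Icc] at hs
        rw [(hg (-lam) s).deriv]
        have h1 := hb s hs.1.le hs.2.le
        have h2 := (abs_le.1 h1).2
        have h3 := Real.exp_pos (-lam * s)
        nlinarith
    have h1 := hm (Set.left_mem_Icc.2 ht) (Set.right_mem_Icc.2 ht) ht
    simp only [mul_zero, Real.exp_zero, one_mul] at h1
    have h2 : Real.exp (-lam * t) = (Real.exp (lam * t))⁻¹ := by
      rw [← Real.exp_neg]
      congr 1
      ring
    rw [h2, inv_mul_le_iff₀ (Real.exp_pos _)] at h1
    exact h1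

/-- log-convex sequences -/
theorem logconv {m : ℕ → ℝ} (hpos : ∀ j, 0 < m j) (hc : ∀ j, m (j + 1) ^ 2 ≤ m j * m (j + 2)) :
    ∀ k, m 0 * (m 1 / m 0) ^ k ≤ m k ∧ m (k + 1) ≤ m 0 * (m (k + 1) / m k) ^ (k + 1) := by
  have hmono : Monotone (fun j => m (j + 1) / m j) := by
    apply monotone_nat_of_le_succ
    intro j
    rw [div_le_div_iff₀ (hpos j) (hpos (j + 1))]
    have := hc j
    nlinarith
  have hr0 : ∀ j, 0 < m (j + 1) / m j := fun j => div_pos (hpos _) (hpos _)
  have hstep : ∀ j, m (j + 1) = (m (j + 1) / m j) * m j := by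
    intro j
    rw [div_mul_cancel₀ _ (hpos j).ne']
  intro k
  constructor
  · induction k with
    | zero => simp
    | succ k ih =>
      have h1 : m (0 + 1) / m 0 ≤ m (k + 1) / m k := hmono (Nat.zero_le k)
      rw [zero_add] at h1
      have h2 : 0 < m 1 / m 0 := hr0 0
      calc m 0 * (m 1 / m 0) ^ (k + 1) = (m 1 / m 0) * (m 0 * (m 1 / m 0) ^ k) := by
            rw [pow_succ]; ring
        _ ≤ (m (k + 1) / m k) * m k := by
            apply mul_le_mul h1 ih _ (hr0 k).le
            have := hpos 0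
            positivity
        _ = m (k + 1) := (hstep k).symm
  · induction k with
    | zero =>
      simp only [zero_add, pow_one]
      rw [mul_div_cancel₀ _ (hpos 0).ne']
    | succ k ih =>
      have h1 : m (k + 1) / m k ≤ m (k + 2) / m (k + 1) := hmono (Nat.le_succ k)
      have h2 : m (k + 2) = (m (k + 2) / m (k + 1)) * m (k + 1) := hstep (k + 1)
      have h3 : (m (k + 1) / m k) ^ (k + 1) ≤ (m (k + 2) / m (k + 1)) ^ (k + 1) :=
        pow_le_pow_left₀ (hr0 k).le h1 _
      have h4 := hr0 (k + 1)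
      have h5 : m (k + 1) ≤ m 0 * (m (k + 2) / m (k + 1)) ^ (k + 1) :=
        ih.trans (mul_le_mul_of_nonneg_left h3 (hpos 0).le)
      calc m (k + 1 + 1) = (m (k + 2) / m (k + 1)) * m (k + 1) := h2
        _ ≤ (m (k + 2) / m (k + 1)) * (m 0 * (m (k + 2) / m (k + 1)) ^ (k + 1)) :=
            mul_le_mul_of_nonneg_left h5 h4.le
        _ = _ := by
            rw [pow_succ (m (k + 1 + 1) / m (k + 1)) (k + 1)]
            ring

end real

section sandwich

variable {n I : Type} [Fintype n] [DecidableEq n] [Fintype I] [DecidableEq I] [Nonempty n] {c : ℕ}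
variable (h : I → Matrix n n ℂ) (col : I → Fin c) (nb : I → Finset I)

theorem KK_herm (hh : ∀ i, (h i).IsHermitian) (b : Fin c) : (KK h col b).IsHermitian := by
  unfold KK Matrix.IsHermitian
  rw [Matrix.conjTranspose_sum]
  exact Finset.sum_congr rfl (fun i _ => (hh i).eq)

theorem sum_herm (hh : ∀ i, (h i).IsHermitian) : (∑ i, h i).IsHermitian := by
  unfold Matrix.IsHermitian
  rw [Matrix.conjTranspose_sum]
  exact Finset.sum_congr rfl (fun i _ => (hh i).eq)

/-- `W = exp (t H / 2) V` -/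
noncomputable def WW (w : List (Fin c × ℝ)) (t : ℝ) : Matrix n n ℂ :=
  NormedSpace.exp (((1 / 2 * t : ℝ) : ℂ) • ∑ i, h i) * P (KK h col) w (t : ℂ)

theorem sandwich (hh : ∀ i, (h i).IsHermitian) {s : ℕ} (hs : ∀ i, (nb i).card ≤ s)
    (hn : ∀ i, ‖h i‖ ≤ 1) (hcol : ∀ i j, col i = col j → Commute (h i) (h j))
    (hnb : ∀ i j, j ∉ nb i → Commute (h i) (h j)) {p : ℕ} {w : List (Fin c × ℝ)}
    (hw : Good c p w) {t : ℝ} (ht0 : 0 ≤ t) (ht1 : t ≤ 1) (y : n → ℂ) :
    Real.exp (-(Fintype.card I * cst s w * t ^ (2 * p) * t)) * sqn y ≤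
      sqn ((WW h col w t)ᴴ.mulVec y) ∧
    sqn ((WW h col w t)ᴴ.mulVec y) ≤
      Real.exp (Fintype.card I * cst s w * t ^ (2 * p) * t) * sqn y := by
  have : Nontrivial (Matrix n n ℂ) := inferInstance
  have : NormOneClass (Matrix n n ℂ) := ⟨CStarRing.norm_one⟩
  obtain ⟨H, hH⟩ : ∃ H, H = ∑ i, h i := ⟨_, rfl⟩
  have hHh : H.IsHermitian := by rw [hH]; exact sum_herm h hh
  have hK : ∀ b, (KK h col b).IsHermitian := KK_herm h col hh
  have hW : ∀ s : ℝ, WW h col w s = NormedSpace.exp ((1 / 2 * (s : ℂ)) • H) *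
      P (KK h col) w (s : ℂ) := by
    intro s
    unfold WW
    rw [hH]
    congr 3
    push_cast
    ring
  have hWs : ∀ s : ℝ, (WW h col w s)ᴴ = P (KK h col) w.reverse (s : ℂ) *
      NormedSpace.exp ((1 / 2 * (s : ℂ)) • H) := by
    intro s
    rw [hW, Matrix.conjTranspose_mul, P_conjTranspose hK]
    congr 1
    have h1 := exp_herm hHh (1 / 2 * s)
    have h2 : ((1 / 2 * s : ℝ) : ℂ) = 1 / 2 * (s : ℂ) := by push_cast; ring
    rwa [h2] at h1
  have hX : ∀ s : ℝ, HasDerivAt (fun s : ℝ => WW h col w s * (WW h col w s)ᴴ)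
      (WW h col w s * Mg (KK h col) H w (s : ℂ) * (WW h col w s)ᴴ) s := by
    intro s
    have h1 := hasDerivAt_X (KK h col) H w (s : ℂ)
    have h2 : HasDerivAt (fun r : ℝ => (r : ℂ)) 1 s := Complex.ofRealCLM.hasDerivAt
    have h3 := h1.scomp s h2
    rw [one_smul] at h3
    have h4 : (fun s : ℝ => WW h col w s * (WW h col w s)ᴴ) =
        (fun z : ℂ => NormedSpace.exp ((1 / 2 * z) • H) *
      (P (KK h col) w z * P (KK h col) w.reverse z) * NormedSpace.exp ((1 / 2 * z) • H)) ∘
        (fun r : ℝ => (r : ℂ)) := by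
      funext r
      rw [hW, ← hW, hWs, hW]
      simp only [Function.comp_apply, mul_assoc]
    rw [h4]
    refine h3.congr_deriv ?_
    rw [hWs, hW]
  obtain ⟨lam, hlam⟩ : ∃ lam : ℝ, lam = Fintype.card I * cst s w * t ^ (2 * p) := ⟨_, rfl⟩
  have hg := gron (f := fun s => ex (WW h col w s * (WW h col w s)ᴴ) y)
    (f' := fun s => ex (WW h col w s * Mg (KK h col) H w (s : ℂ) * (WW h col w s)ᴴ) y)
    (lam := lam) ht0 (fun s => hasDerivAt_ex (hX s) y) (by
      intro r hr0 hr1
      rw [ex_conj, ex_mul_conj]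
      refine (abs_ex_le _ _).trans (mul_le_mul_of_nonneg_right ?_ (sqn_nonneg _))
      have hr : ‖(r : ℂ)‖ ≤ 1 := by
        rw [Complex.norm_real, Real.norm_of_nonneg hr0]
        linarith
      rw [hH]
      refine (norm_Mg_le_pow h col nb hs hn hcol hnb hr hw).trans ?_
      rw [hlam, Complex.norm_real, Real.norm_of_nonneg hr0]
      have hc0 := cst_nonneg s w
      apply mul_le_mul_of_nonneg_left _ (by positivity)
      exact pow_le_pow_left₀ hr0 hr1 _)
  simp only [ex_mul_conj] at hg
  have hW0 : (WW h col w 0)ᴴ = 1 := by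
    rw [hWs]
    simp only [Complex.ofReal_zero, mul_zero, zero_smul, NormedSpace.exp_zero, mul_one]
    exact P_zero _ _
  rw [hW0, Matrix.one_mulVec, hlam] at hg
  exact hg

end sandwich

end Pool.Agent.Hhelper17.PE
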