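import Pool.Agent.Hhelper17.PE.BGen
import Pool.Agent.Hhelper17.PE.Level
import Pool.Agent.Hhelper17.PE.Sandwich
import Pool.Agent.Hhelper96.UB.EngineStmt3

/-!
The block form of the product formula estimate.
-/

set_option autoImplicit false
set_option linter.unusedSectionVars false

open scoped BigOperators Matrix.Norms.L2Operator
open Matrix Pool.Agent.Hhelper96.PEPS

namespace Pool.Agent.Hhelper17.PE

section gen

variable {n : Type} [Fintype n] [DecidableEq n] [Nonempty n] {c : ℕ}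

theorem sandwich_gen {H : Matrix n n ℂ} (hHh : H.IsHermitian) {K : Fin c → Matrix n n ℂ}
    (hK : ∀ b, (K b).IsHermitian) {w : List (Fin c × ℝ)} {t lam : ℝ} (ht0 : 0 ≤ t)
    (hM : ∀ r : ℝ, 0 ≤ r → r ≤ t → ‖Mg K H w (r : ℂ)‖ ≤ lam) (φ : n → ℂ) :
    Real.exp (-(lam * t)) * ex (NormedSpace.exp ((-t) • H)) φ ≤
      ex (P K w (t : ℂ) * (P K w (t : ℂ))ᴴ) φ ∧
    ex (P K w (t : ℂ) * (P K w (t : ℂ))ᴴ) φ ≤
      Real.exp (lam * t) * ex (NormedSpace.exp ((-t) • H)) φ := by
  have : Nontrivial (Matrix n n ℂ) := inferInstance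
  have : NormOneClass (Matrix n n ℂ) := ⟨CStarRing.norm_one⟩
  obtain ⟨W, hW⟩ : ∃ W : ℝ → Matrix n n ℂ, W = fun s : ℝ => NormedSpace.exp ((1 / 2 * (s : ℂ)) • H) *
      P K w (s : ℂ) := ⟨_, rfl⟩
  have hWs : ∀ s : ℝ, (W s)ᴴ = P K w.reverse (s : ℂ) *
      NormedSpace.exp ((1 / 2 * (s : ℂ)) • H) := by
    intro s
    rw [hW]
    simp only
    rw [Matrix.conjTranspose_mul, P_conjTranspose hK]
    congr 1
    have h1 := exp_herm hHh (1 / 2 * s)
    have h2 : ((1 / 2 * s : ℝ) : ℂ) = 1 / 2 * (s : ℂ) := by push_cast; ring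
    rwa [h2] at h1
  have hX : ∀ s : ℝ, HasDerivAt (fun s : ℝ => W s * (W s)ᴴ)
      (W s * Mg K H w (s : ℂ) * (W s)ᴴ) s := by
    intro s
    have h1 := hasDerivAt_X K H w (s : ℂ)
    have h2 : HasDerivAt (fun r : ℝ => (r : ℂ)) 1 s := Complex.ofRealCLM.hasDerivAt
    have h3 := h1.scomp s h2
    rw [one_smul] at h3
    have h4 : (fun s : ℝ => W s * (W s)ᴴ) =
        (fun z : ℂ => NormedSpace.exp ((1 / 2 * z) • H) *
      (P K w z * P K w.reverse z) * NormedSpace.exp ((1 / 2 * z) • H)) ∘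
        (fun r : ℝ => (r : ℂ)) := by
      funext r
      rw [hWs, hW]
      simp only [Function.comp_apply, mul_assoc]
    rw [h4]
    refine h3.congr_deriv ?_
    rw [hWs, hW]
  have hsw : ∀ y : n → ℂ, Real.exp (-(lam * t)) * sqn y ≤ sqn ((W t)ᴴ.mulVec y) ∧
      sqn ((W t)ᴴ.mulVec y) ≤ Real.exp (lam * t) * sqn y := by
    intro y
    have hg := gron (f := fun s => ex (W s * (W s)ᴴ) y)
      (f' := fun s => ex (W s * Mg K H w (s : ℂ) * (W s)ᴴ) y)
      (lam := lam) ht0 (fun s => hasDerivAt_ex (hX s) y) (by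
        intro r hr0 hr1
        rw [ex_conj, ex_mul_conj]
        refine (abs_ex_le _ _).trans (mul_le_mul_of_nonneg_right ?_ (sqn_nonneg _))
        exact hM r hr0 hr1)
    simp only [ex_mul_conj] at hg
    have hW0 : (W 0)ᴴ = 1 := by
      rw [hWs]
      simp only [Complex.ofReal_zero, mul_zero, zero_smul, NormedSpace.exp_zero, mul_one]
      exact P_zero _ _
    rw [hW0, Matrix.one_mulVec] at hg
    exact hg
  obtain ⟨E, hE⟩ : ∃ E : ℝ → Matrix n n ℂ, E = fun a : ℝ => NormedSpace.exp ((a : ℂ) • H) :=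
    ⟨_, rfl⟩
  have hEE : ∀ a b, E a * E b = E (a + b) := by
    intro a b
    rw [hE]
    simp only
    rw [← exp_add_smul]
    congr 2
    push_cast
    rfl
  have hEh : ∀ a, (E a)ᴴ = E a := by
    intro a
    rw [hE]
    exact exp_herm hHh a
  have hE0 : E 0 = 1 := by
    rw [hE]
    simp [NormedSpace.exp_zero]
  have hEt : NormedSpace.exp ((-t) • H) = E (-t) := by
    rw [hE]
    simp only
    congr 1
  obtain ⟨V, hV⟩ : ∃ V, V = P K w (t : ℂ) := ⟨_, rfl⟩
  have hWEV : W t = E (1 / 2 * t) * V := by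
    rw [hW, hE, hV]
    simp only
    congr 3
    push_cast
    ring
  have hWs' : (W t)ᴴ = Vᴴ * E (1 / 2 * t) := by
    rw [hWEV, Matrix.conjTranspose_mul, hEh]
  have h1 := hsw ((E (-(1 / 2 * t))).mulVec φ)
  have h2 : sqn ((E (-(1 / 2 * t))).mulVec φ) = ex (E (-t)) φ := by
    rw [← ex_conj_mul, hEh, hEE]
    have h5 : -(1 / 2 * t) + -(1 / 2 * t) = -t := by ring
    rw [h5]
  rw [Matrix.mulVec_mulVec, hWs', Matrix.mul_assoc, hEE, add_neg_cancel, hE0, Matrix.mul_one,
    h2, ← ex_mul_conj] at h1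
  rw [hEt, ← hV]
  exact h1

end gen

section order

variable {𝔸 : Type} [NormedRing 𝔸] [NormedAlgebra ℂ 𝔸] [CompleteSpace 𝔸]

theorem Near.lower {m m' : ℕ} (hm : m' ≤ m) {f g : ℂ → 𝔸} (h : Near m f g) : Near m' f g := by
  obtain ⟨r, hr, h1⟩ := h
  refine ⟨fun z => z ^ (m - m') • r z, (differentiable_id.pow (m - m')).smul hr, fun z => ?_⟩
  rw [h1, smul_smul, ← pow_add]
  congr 3
  omega

/-- entire functions with the same value at `0` -/
theorem near_one {f g : ℂ → 𝔸} (hf : Differentiable ℂ f) (hg : Differentiable ℂ g)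
    (h0 : f 0 = g 0) : Near 1 f g := by
  have hd : Differentiable ℂ (fun z => f z - g z) := hf.sub hg
  refine ⟨dslope (fun z => f z - g z) 0, dslope_diff hd, fun z => ?_⟩
  have h1 : (fun z => f z - g z) 0 = 0 := by
    simp only
    rw [h0, sub_self]
  rw [pow_one, ← dslope_zero h1]
  abel

variable {I : Type} [Fintype I] [DecidableEq I]

theorem ord_nine {h : I → 𝔸} {lam1 lam2 : I → ℕ} (h1 : Lev h lam1) (h2 : Lev h lam2) (m : ℕ) :
    ∃ γ, Ord (2 * (m / 2) + 1) (fun z => P (fun k => ∑ i ∈ lay m lam1 lam2 k, h i)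
      (w9 ++ w9.reverse) z) (∑ i, h i) 1 γ := by
  rcases Nat.eq_zero_or_pos m with rfl | hm
  · apply Near.ord
    refine near_one (P_diff _ _) (by
      have := exp_diff (-1) (∑ i, h i)
      simpa only [neg_mul] using this) ?_
    rw [P_zero, mul_zero, neg_zero, zero_smul, NormedSpace.exp_zero]
  · have e1 := near_nine h1 h2 hm
    have e2 := near_reverse e1
    have hd : Differentiable ℂ (fun z : ℂ => NormedSpace.exp ((-(1 / 2 * z)) • ∑ i, h i)) :=
      exp_diff' (1 / 2) _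
    have e3 := Near.mul hd hd e1 e2
    apply Near.ord
    refine (e3.lower (m' := 2 * (m / 2) + 1) (by omega)).congr (fun z => ?_) (fun z => ?_)
    · rw [P_append]
    · rw [← exp_add_smul]
      congr 2
      ring

end order

open Classical in
/-- the block estimate -/
theorem blockStmt (z : ℕ) : BlockStmt z := by
  obtain ⟨R, hR⟩ : ∃ R : ℝ, R = 1 / (18 * (z + 1)) := ⟨_, rfl⟩
  have hz0 : (0 : ℝ) ≤ z := by positivity
  have hRpos : 0 < R := by rw [hR]; positivity
  have hR1 : R ≤ 1 / 18 := by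
    rw [hR]
    apply one_div_le_one_div_of_le (by norm_num)
    linarith
  refine ⟨R / 2, 40, by positivity, by norm_num, ?_⟩
  intro n I _ _ _ _ _ m h l₁ l₂ nb hh hn hs hnb hlev t ht0 ht1 φ
  have : Nontrivial (Matrix n n ℂ) := inferInstance
  have : NormOneClass (Matrix n n ℂ) := ⟨CStarRing.norm_one⟩
  have hL1 : Lev h l₁ := by
    intro i j hij
    apply hnb
    intro hj
    have := (hlev i j hj).1
    omega
  have hL2 : Lev h l₂ := by
    intro i j hij
    apply hnb
    intro hj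
    have := (hlev i j hj).2
    omega
  obtain ⟨γ, hord⟩ := ord_nine hL1 hL2 m
  obtain ⟨K, hK⟩ : ∃ K : Fin 9 → Matrix n n ℂ, K = fun k => ∑ i ∈ lay m l₁ l₂ k, h i := ⟨_, rfl⟩
  have hHh : (∑ i, h i).IsHermitian := sum_herm h hh
  have hKh : ∀ b, (K b).IsHermitian := by
    intro b
    rw [hK]
    unfold Matrix.IsHermitian
    rw [Matrix.conjTranspose_sum]
    exact Finset.sum_congr rfl (fun i _ => (hh i).eq)
  have hwl : wl w9 = 9 / 2 := by
    unfold wl w9
    simp only [List.map_cons, List.map_nil, List.sum_cons, List.sum_nil, abs_neg]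
    rw [abs_of_pos (by norm_num : (0 : ℝ) < 1 / 2)]
    norm_num
  obtain ⟨lam, hlam⟩ : ∃ lam : ℝ, lam = Fintype.card I * 20 * (2 / 2 ^ m) := ⟨_, rfl⟩
  have hM : ∀ r : ℝ, 0 ≤ r → r ≤ t → ‖Mg K (∑ i, h i) w9 (r : ℂ)‖ ≤ lam := by
    intro r hr0 hr1
    have hrn : ‖(r : ℂ)‖ = r := by rw [Complex.norm_real, Real.norm_of_nonneg hr0]
    have h1 := norm_Mg_pow h (lay m l₁ l₂) nb hs (fun i => norm_le_one (hn i)) hnb hord hRpos (by
      rw [hwl, hR]
      rw [div_mul_eq_mul_div, div_mul_eq_mul_div, div_le_iff₀ (by positivity)]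
      nlinarith) (z := (r : ℂ)) (by rw [hrn]; linarith)
    rw [hK]
    refine h1.trans ?_
    rw [hlam, hwl, hrn]
    have h2 : (r / R) ^ (2 * (m / 2)) ≤ 2 / 2 ^ m := by
      have h3 : r / R ≤ 1 / 2 := by
        rw [div_le_iff₀ hRpos]
        linarith
      have h4 : 0 ≤ r / R := div_nonneg hr0 hRpos.le
      calc (r / R) ^ (2 * (m / 2)) ≤ (1 / 2) ^ (2 * (m / 2)) := pow_le_pow_left₀ h4 h3 _
        _ ≤ 2 / 2 ^ m := by
          rw [div_pow, one_pow, div_le_div_iff₀ (by positivity) (by positivity), one_mul,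
            ← pow_succ']
          exact pow_le_pow_right₀ (by norm_num) (by omega)
    calc (Fintype.card I : ℝ) * (2 + 4 * (9 / 2)) * (r / R) ^ (2 * (m / 2))
        ≤ Fintype.card I * (2 + 4 * (9 / 2)) * (2 / 2 ^ m) :=
          mul_le_mul_of_nonneg_left h2 (by positivity)
      _ = _ := by ring
  have hsw := sandwich_gen hHh hKh ht0.le hM φ
  -- identification of the product
  have hel : ∀ (k : Fin 9) (a b : Fin 3) (c : ℝ), ix1 k = a → ix2 k = b →
      c = cutSgn a * cutSgn b * (1 / 2) →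
      NormedSpace.exp ((-((c : ℂ) * (t : ℂ))) • K k) = blockLayer h l₁ l₂ m (t / 2) (a, b) := by
    intro k a b c ha hb hc
    have hlay : K k = ∑ i ∈ Finset.univ.filter
        (fun i => cutSet m a (l₁ i) ∧ cutSet m b (l₂ i)), h i := by
      rw [hK]
      apply Finset.sum_congr _ (fun _ _ => rfl)
      ext i
      unfold lay
      rw [ha, hb]
      simp only [sel, cutSet]
      split_ifs <;> simp
    unfold blockLayer
    rw [hlay]
    congr 1
    obtain ⟨X, hX⟩ : ∃ X : Matrix n n ℂ, X = ∑ i ∈ Finset.univ.filter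
        (fun i => cutSet m a (l₁ i) ∧ cutSet m b (l₂ i)), h i := ⟨_, rfl⟩
    simp only
    rw [← hX, hc]
    ext i j
    simp only [Matrix.smul_apply, Complex.real_smul, smul_eq_mul]
    push_cast
    ring
  have hVV : P K w9 (t : ℂ) = blockProd h l₁ l₂ m (t / 2) := by
    unfold P blockProd w9
    simp only [List.map_cons, List.map_nil]
    rw [hel 0 0 0 _ rfl rfl (by simp [cutSgn]), hel 1 0 1 _ rfl rfl (by simp [cutSgn]),
      hel 2 0 2 _ rfl rfl (by simp [cutSgn]), hel 3 1 0 _ rfl rfl (by simp [cutSgn]),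
      hel 4 1 1 _ rfl rfl (by simp [cutSgn]), hel 5 1 2 _ rfl rfl (by simp [cutSgn]),
      hel 6 2 0 _ rfl rfl (by simp [cutSgn]), hel 7 2 1 _ rfl rfl (by simp [cutSgn]),
      hel 8 2 2 _ rfl rfl (by simp [cutSgn])]
  rw [hVV] at hsw
  have hle : lam * t ≤ 40 * Fintype.card I / 2 ^ m := by
    have ht : t ≤ 1 := by linarith
    have h0 : 0 ≤ lam := by rw [hlam]; positivity
    calc lam * t ≤ lam * 1 := mul_le_mul_of_nonneg_left ht h0
      _ = _ := by rw [hlam]; ring
  have hpos : 0 ≤ ex (NormedSpace.exp ((-t) • ∑ i, h i)) φ := by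
    have h3 := (sqn_nonneg ((blockProd h l₁ l₂ m (t / 2))ᴴ.mulVec φ))
    rw [← ex_mul_conj] at h3
    exact nonneg_of_mul_nonneg_right (h3.trans hsw.2) (Real.exp_pos _)
  constructor
  · refine le_trans (mul_le_mul_of_nonneg_right (Real.exp_le_exp.2 ?_) hpos) hsw.1
    linarith
  · exact hsw.2.trans (mul_le_mul_of_nonneg_right (Real.exp_le_exp.2 hle) hpos)

end Pool.Agent.Hhelper17.PE
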