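import Pool.Agent.Hhelper17.PE.Sandwich

/-!
The engine: powers of a product `S = V V^*` of exponentials of sums of commuting local terms, applied
to a basis vector, have energy close to the ground state energy.
-/

set_option autoImplicit false
set_option linter.unusedSectionVars false

open scoped BigOperators Matrix.Norms.L2Operator
open Matrix Pool.Agent.Hhelper96.PEPS

namespace Pool.Agent.Hhelper17.PE

section zig

variable {n : Type} [Fintype n] [DecidableEq n]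

/-- alternating application of `V^*` and `V` -/
def zig (V : Matrix n n ℂ) (x : n → ℂ) : ℕ → (n → ℂ)
  | 0 => x
  | j + 1 => if Even j then Vᴴ.mulVec (zig V x j) else V.mulVec (zig V x j)

theorem zig_succ (V : Matrix n n ℂ) (x : n → ℂ) (j : ℕ) :
    zig V x (j + 1) = if Even j then Vᴴ.mulVec (zig V x j) else V.mulVec (zig V x j) := rfl

theorem zig_odd (V : Matrix n n ℂ) (x : n → ℂ) (i : ℕ) :
    zig V x (2 * i + 1) = Vᴴ.mulVec (zig V x (2 * i)) := by
  rw [zig_succ, if_pos (even_two_mul i)]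

theorem zig_even_succ (V : Matrix n n ℂ) (x : n → ℂ) (i : ℕ) :
    zig V x (2 * i + 2) = V.mulVec (zig V x (2 * i + 1)) := by
  rw [zig_succ, if_neg]
  rw [Nat.not_even_iff_odd]
  exact ⟨i, rfl⟩

theorem zig_even (V : Matrix n n ℂ) (x : n → ℂ) (i : ℕ) :
    zig V x (2 * i) = ((V * Vᴴ) ^ i).mulVec x := by
  induction i with
  | zero => simp [zig]
  | succ i ih =>
    have h1 : 2 * (i + 1) = 2 * i + 2 := by ring
    rw [h1, zig_even_succ, zig_odd, ih, Matrix.mulVec_mulVec, Matrix.mulVec_mulVec, pow_succ']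

theorem re_inner_mulVec (B : Matrix n n ℂ) (u : n → ℂ) :
    sqn (B.mulVec u) ≤ √(sqn u) * √(sqn (Bᴴ.mulVec (B.mulVec u))) := by
  have h1 : star (B.mulVec u) ⬝ᵥ (B.mulVec u) = star u ⬝ᵥ (Bᴴ.mulVec (B.mulVec u)) := by
    rw [Matrix.star_mulVec, ← Matrix.dotProduct_mulVec]
  rw [star_dot_self] at h1
  have h2 := cauchy u (Bᴴ.mulVec (B.mulVec u))
  rw [← h1, Complex.norm_real, Real.norm_of_nonneg (sqn_nonneg _)] at h2
  exact h2

theorem zig_logconv (V : Matrix n n ℂ) (x : n → ℂ) (j : ℕ) :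
    sqn (zig V x (j + 1)) ^ 2 ≤ sqn (zig V x j) * sqn (zig V x (j + 2)) := by
  have key : ∀ B : Matrix n n ℂ, zig V x (j + 1) = B.mulVec (zig V x j) →
      zig V x (j + 2) = Bᴴ.mulVec (zig V x (j + 1)) →
      sqn (zig V x (j + 1)) ^ 2 ≤ sqn (zig V x j) * sqn (zig V x (j + 2)) := by
    intro B h1 h2
    have h3 := re_inner_mulVec B (zig V x j)
    rw [← h1, ← h2] at h3
    have h4 := sqn_nonneg (zig V x (j + 1))
    calc sqn (zig V x (j + 1)) ^ 2 ≤ (√(sqn (zig V x j)) * √(sqn (zig V x (j + 2)))) ^ 2 :=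
          pow_le_pow_left₀ h4 h3 2
      _ = _ := by
          rw [mul_pow, Real.sq_sqrt (sqn_nonneg _), Real.sq_sqrt (sqn_nonneg _)]
  rcases Nat.even_or_odd' j with ⟨i, rfl | rfl⟩
  · apply key Vᴴ (zig_odd V x i)
    rw [Matrix.conjTranspose_conjTranspose]
    exact zig_even_succ V x i
  · apply key V (zig_even_succ V x i)
    have h1 : 2 * i + 1 + 2 = 2 * (i + 1) + 1 := by ring
    have h2 : 2 * i + 1 + 1 = 2 * (i + 1) := by ring
    rw [h1, h2]
    exact zig_odd V x (i + 1)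

theorem zig_ne_zero {V Vi : Matrix n n ℂ} (h1 : Vi * V = 1) (h2 : V * Vi = 1) {x : n → ℂ}
    (hx : x ≠ 0) (j : ℕ) : zig V x j ≠ 0 := by
  have hV : ∀ u : n → ℂ, V.mulVec u = 0 → u = 0 := by
    intro u hu
    have h3 := congrArg (fun y => Vi.mulVec y) hu
    simp only [Matrix.mulVec_mulVec, h1, Matrix.one_mulVec, Matrix.mulVec_zero] at h3
    exact h3
  have hVs : ∀ u : n → ℂ, Vᴴ.mulVec u = 0 → u = 0 := by
    intro u hu
    have h4 : Viᴴ * Vᴴ = 1 := by
      rw [← Matrix.conjTranspose_mul, h2, Matrix.conjTranspose_one]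
    have h3 := congrArg (fun y => Viᴴ.mulVec y) hu
    simp only [Matrix.mulVec_mulVec, h4, Matrix.one_mulVec, Matrix.mulVec_zero] at h3
    exact h3
  induction j with
  | zero => exact hx
  | succ j ih =>
    rw [zig_succ]
    split_ifs
    · exact fun h0 => ih (hVs _ h0)
    · exact fun h0 => ih (hV _ h0)

/-- some column of a matrix is large -/
theorem exists_col [Nonempty n] (A : Matrix n n ℂ) (ψ : n → ℂ) :
    ∃ x : n, sqn (A.mulVec ψ) ≤ Fintype.card n * sqn (A.mulVec (Pi.single x 1)) * sqn ψ := by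
  have h1 : sqn (A.mulVec ψ) ≤ (∑ x, sqn (A.mulVec (Pi.single x 1))) * sqn ψ := by
    have h2 : ∀ i, ‖(A.mulVec ψ) i‖ ^ 2 ≤ (∑ x, ‖A i x‖ ^ 2) * sqn ψ := by
      intro i
      have h3 : ‖(A.mulVec ψ) i‖ ≤ ∑ x, ‖A i x‖ * ‖ψ x‖ := by
        unfold Matrix.mulVec dotProduct
        refine (norm_sum_le _ _).trans ?_
        refine Finset.sum_le_sum (fun x _ => ?_)
        rw [norm_mul]
      refine (pow_le_pow_left₀ (norm_nonneg _) h3 2).trans ?_
      unfold sqn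
      exact Finset.sum_mul_sq_le_sq_mul_sq _ _ _
    have h4 : ∀ x, sqn (A.mulVec (Pi.single x 1)) = ∑ i, ‖A i x‖ ^ 2 := by
      intro x
      unfold sqn
      rw [Matrix.mulVec_single_one]
      rfl
    simp_rw [h4]
    rw [Finset.sum_comm, Finset.sum_mul]
    unfold sqn at h2 ⊢
    exact Finset.sum_le_sum (fun i _ => h2 i)
  obtain ⟨x, -, hx⟩ := Finset.exists_max_image (Finset.univ : Finset n)
    (fun x => sqn (A.mulVec (Pi.single x 1))) Finset.univ_nonempty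
  refine ⟨x, h1.trans (mul_le_mul_of_nonneg_right ?_ (sqn_nonneg ψ))⟩
  refine (Finset.sum_le_card_nsmul _ _ _ (fun y hy => hx y hy)).trans ?_
  rw [nsmul_eq_mul, Finset.card_univ]

theorem sqn_single (x : n) : sqn (Pi.single x 1 : n → ℂ) = 1 := by
  unfold sqn
  rw [Finset.sum_eq_single x]
  · simp
  · intro y _ hy
    rw [Pi.single_eq_of_ne hy]
    simp
  · intro h; exact absurd (Finset.mem_univ _) h

end zig

section engine

variable {n I : Type} [Fintype n] [DecidableEq n] [Fintype I] [DecidableEq I] [Nonempty n] {c : ℕ}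
variable (h : I → Matrix n n ℂ) (col : I → Fin c) (nb : I → Finset I)

theorem engine_core (hh : ∀ i, (h i).IsHermitian) {s : ℕ} (hs : ∀ i, (nb i).card ≤ s)
    (hn : ∀ i, ‖h i‖ ≤ 1) (hcol : ∀ i j, col i = col j → Commute (h i) (h j))
    (hnb : ∀ i j, j ∉ nb i → Commute (h i) (h j)) {p : ℕ} {w : List (Fin c × ℝ)}
    (hw : Good c p w) {t : ℝ} (ht0 : 0 < t) (ht1 : t ≤ 1) {q : ℕ} (hq : 1 ≤ q) {ψ : n → ℂ}
    (hψ : ψ ≠ 0) :
    ∃ x : n, ((P (KK h col) w (t : ℂ) * (P (KK h col) w (t : ℂ))ᴴ) ^ q).mulVec (Pi.single x 1) ≠ 0 ∧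
      ex (∑ i, h i) (((P (KK h col) w (t : ℂ) * (P (KK h col) w (t : ℂ))ᴴ) ^ q).mulVec
          (Pi.single x 1)) /
        sqn (((P (KK h col) w (t : ℂ) * (P (KK h col) w (t : ℂ))ᴴ) ^ q).mulVec (Pi.single x 1)) ≤
      ex (∑ i, h i) ψ / sqn ψ + 2 * cst s w * Fintype.card I * t ^ (2 * p) +
        Real.log (Fintype.card n) / (2 * q * t) := by
  obtain ⟨H, hH⟩ : ∃ H, H = ∑ i, h i := ⟨_, rfl⟩
  have hHh : H.IsHermitian := by rw [hH]; exact sum_herm h hh
  obtain ⟨V, hV⟩ : ∃ V, V = P (KK h col) w (t : ℂ) := ⟨_, rfl⟩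
  obtain ⟨Vi, hVi⟩ : ∃ Vi, Vi = P (KK h col) w.reverse (-(t : ℂ)) := ⟨_, rfl⟩
  have hVVi : V * Vi = 1 := by rw [hV, hVi]; exact P_mul_reverse _ _ _
  have hViV : Vi * V = 1 := by rw [hV, hVi]; exact P_reverse_mul _ _ _
  obtain ⟨k, hk⟩ : ∃ k : ℝ, k = Fintype.card I * cst s w * t ^ (2 * p) * t := ⟨_, rfl⟩
  have hsw := sandwich h col nb hh hs hn hcol hnb hw ht0.le ht1
  rw [← hk] at hsw
  -- exponentials
  obtain ⟨E, hE⟩ : ∃ E : ℝ → Matrix n n ℂ, E = fun a : ℝ => NormedSpace.exp ((a : ℂ) • H) :=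
    ⟨_, rfl⟩
  have hEE : ∀ a b, E a * E b = E (a + b) := by
    intro a b
    rw [hE]
    simp only
    rw [← exp_add_smul]
    congr 2
    push_cast
    rfl
  have hEh : ∀ a, (E a)ᴴ = E a := by
    intro a
    rw [hE]
    exact exp_herm hHh a
  have hE0 : E 0 = 1 := by
    rw [hE]
    simp [NormedSpace.exp_zero]
  have hsqE : ∀ a (u : n → ℂ), sqn ((E a).mulVec u) = ex (E (a + a)) u := by
    intro a u
    rw [← ex_conj_mul, hEh, hEE]
  have hjen : ∀ a (u : n → ℂ), u ≠ 0 → sqn u * Real.exp (a * (ex H u / sqn u)) ≤ ex (E a) u := by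
    intro a u hu
    rw [hE]
    exact jensen hHh a hu
  obtain ⟨W, hW⟩ : ∃ W, W = WW h col w t := ⟨_, rfl⟩
  have hWEV : W = E (1 / 2 * t) * V := by
    rw [hW, hE, hV]
    unfold WW
    rw [hH]
  have hWs : Wᴴ = Vᴴ * E (1 / 2 * t) := by
    rw [hWEV, Matrix.conjTranspose_mul, hEh]
  rw [← hW] at hsw
  -- (i)
  have hi : ∀ u : n → ℂ, u ≠ 0 →
      Real.exp (-k) * (sqn u * Real.exp (-(t * (ex H u / sqn u)))) ≤ sqn (Vᴴ.mulVec u) := by
    intro u hu
    have h1 := (hsw ((E (-(1 / 2 * t))).mulVec u)).1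
    rw [Matrix.mulVec_mulVec, hWs, Matrix.mul_assoc, hEE, add_neg_cancel, hE0, Matrix.mul_one,
      hsqE] at h1
    have h2 := hjen (-(1 / 2 * t) + -(1 / 2 * t)) u hu
    have h3 : (-(1 / 2 * t) + -(1 / 2 * t)) * (ex H u / sqn u) = -(t * (ex H u / sqn u)) := by ring
    rw [h3] at h2
    exact (mul_le_mul_of_nonneg_left h2 (Real.exp_pos _).le).trans h1
  -- (ii)
  have hWn : ∀ u : n → ℂ, sqn (W.mulVec u) ≤ Real.exp k * sqn u := by
    intro u
    have h1 := re_inner_mulVec W u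
    have h2 := (hsw (W.mulVec u)).2
    have h3 := sqn_nonneg (W.mulVec u)
    have h4 := sqn_nonneg u
    rcases eq_or_lt_of_le h3 with h5 | h5
    · rw [← h5]
      positivity
    · have h6 : √(sqn (Wᴴ.mulVec (W.mulVec u))) ≤ √(Real.exp k * sqn (W.mulVec u)) :=
        Real.sqrt_le_sqrt h2
      have h7 : sqn (W.mulVec u) ≤ √(sqn u) * √(Real.exp k * sqn (W.mulVec u)) :=
        h1.trans (mul_le_mul_of_nonneg_left h6 (Real.sqrt_nonneg _))
      have h8 : sqn (W.mulVec u) ^ 2 ≤ sqn u * (Real.exp k * sqn (W.mulVec u)) := by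
        calc sqn (W.mulVec u) ^ 2 ≤ (√(sqn u) * √(Real.exp k * sqn (W.mulVec u))) ^ 2 :=
              pow_le_pow_left₀ h3 h7 2
          _ = _ := by
              rw [mul_pow, Real.sq_sqrt h4, Real.sq_sqrt (by positivity)]
      have h9 : sqn (W.mulVec u) * sqn (W.mulVec u) ≤
          (Real.exp k * sqn u) * sqn (W.mulVec u) := by
        calc sqn (W.mulVec u) * sqn (W.mulVec u) = sqn (W.mulVec u) ^ 2 := by ring
          _ ≤ _ := h8
          _ = _ := by ring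
      exact le_of_mul_le_mul_right h9 h5
  have hii : ∀ u : n → ℂ, u ≠ 0 →
      Real.exp (-k) * (sqn u * Real.exp (t * (ex H u / sqn u))) ≤ sqn (Vi.mulVec u) := by
    intro u hu
    have h1 := hWn (Vi.mulVec u)
    rw [Matrix.mulVec_mulVec, hWEV, Matrix.mul_assoc, hVVi, Matrix.mul_one, hsqE] at h1
    have h2 := hjen (1 / 2 * t + 1 / 2 * t) u hu
    have h3 : (1 / 2 * t + 1 / 2 * t) * (ex H u / sqn u) = t * (ex H u / sqn u) := by ring
    rw [h3] at h2
    rw [Real.exp_neg, inv_mul_le_iff₀ (Real.exp_pos _)]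
    exact h2.trans h1
  -- the start vector
  obtain ⟨x, hx⟩ := exists_col ((V * Vᴴ) ^ q) ψ
  refine ⟨x, ?_⟩
  rw [← hV, ← hH]
  have hx0 : (Pi.single x 1 : n → ℂ) ≠ 0 := by
    intro h0
    have := sqn_single x
    rw [h0] at this
    simp [sqn] at this
  have hne : ((V * Vᴴ) ^ q).mulVec (Pi.single x 1) ≠ 0 := by
    rw [← zig_even]
    exact zig_ne_zero hViV hVVi hx0 _
  refine ⟨hne, ?_⟩
  -- moments
  have hmpos : ∀ j, 0 < sqn (zig V (Pi.single x 1) j) :=
    fun j => sqn_pos (zig_ne_zero hViV hVVi hx0 j)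
  have hMpos : ∀ j, 0 < sqn (zig V ψ j) := fun j => sqn_pos (zig_ne_zero hViV hVVi hψ j)
  have hm := (logconv hmpos (zig_logconv V _) (2 * q - 1)).2
  have hM := (logconv hMpos (zig_logconv V _) (2 * q)).1
  have hq1 : 2 * q - 1 + 1 = 2 * q := by omega
  rw [hq1] at hm
  have e0 : sqn (zig V (Pi.single x 1) 0) = 1 := sqn_single x
  have e1 : zig V ψ 0 = ψ := rfl
  have e2 : zig V ψ 1 = Vᴴ.mulVec ψ := zig_odd V ψ 0
  rw [e0, one_mul] at hm
  rw [e1, e2, zig_even] at hM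
  obtain ⟨φ, hφ⟩ : ∃ φ, φ = ((V * Vᴴ) ^ q).mulVec (Pi.single x 1) := ⟨_, rfl⟩
  have e3 : zig V (Pi.single x 1) (2 * q) = φ := by rw [hφ, zig_even]
  have e4 : Vi.mulVec φ = zig V (Pi.single x 1) (2 * q - 1) := by
    obtain ⟨i, hi⟩ : ∃ i, q = i + 1 := ⟨q - 1, by omega⟩
    have h1 : 2 * q = 2 * i + 2 := by omega
    have h2 : 2 * q - 1 = 2 * i + 1 := by omega
    rw [← e3, h1, zig_even_succ, Matrix.mulVec_mulVec, hViV, Matrix.one_mulVec]
    congr 1
  rw [← hφ] at hne hx ⊢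
  rw [e3] at hm
  obtain ⟨r, hr⟩ : ∃ r, r = sqn φ / sqn (zig V (Pi.single x 1) (2 * q - 1)) := ⟨_, rfl⟩
  have hφpos := sqn_pos hne
  have hψpos := sqn_pos hψ
  have hrpos : 0 < r := by rw [hr]; exact div_pos hφpos (hmpos _)
  rw [← hr] at hm
  -- logarithm of r from above
  have h2 := hii φ hne
  rw [e4] at h2
  have h3 : Real.exp (-k + t * (ex H φ / sqn φ)) * r ≤ 1 := by
    rw [hr, Real.exp_add, ← mul_div_assoc, div_le_one (hmpos _)]
    calc Real.exp (-k) * Real.exp (t * (ex H φ / sqn φ)) * sqn φ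
        = Real.exp (-k) * (sqn φ * Real.exp (t * (ex H φ / sqn φ))) := by ring
      _ ≤ _ := h2
  have h4 : -k + t * (ex H φ / sqn φ) + Real.log r ≤ 0 := by
    have := Real.log_le_log (mul_pos (Real.exp_pos _) hrpos) h3
    rwa [Real.log_mul (Real.exp_pos _).ne' hrpos.ne', Real.log_exp, Real.log_one] at this
  -- logarithm of r from below
  obtain ⟨R, hR⟩ : ∃ R, R = sqn (Vᴴ.mulVec ψ) / sqn ψ := ⟨_, rfl⟩
  have hRlow : Real.exp (-k + -(t * (ex H ψ / sqn ψ))) ≤ R := by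
    rw [hR, le_div_iff₀ hψpos, Real.exp_add]
    calc Real.exp (-k) * Real.exp (-(t * (ex H ψ / sqn ψ))) * sqn ψ
        = Real.exp (-k) * (sqn ψ * Real.exp (-(t * (ex H ψ / sqn ψ)))) := by ring
      _ ≤ _ := hi ψ hψ
  have hRpos : 0 < R := (Real.exp_pos _).trans_le hRlow
  have h5 : -k + -(t * (ex H ψ / sqn ψ)) ≤ Real.log R := by
    rw [← Real.log_exp (-k + -(t * (ex H ψ / sqn ψ)))]
    exact Real.log_le_log (Real.exp_pos _) hRlow
  have hcard : (0 : ℝ) < Fintype.card n := by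
    exact_mod_cast Fintype.card_pos
  have h6 : R ^ (2 * q) ≤ Fintype.card n * r ^ (2 * q) := by
    rw [← hR] at hM
    have h7 : sqn ψ * R ^ (2 * q) ≤ Fintype.card n * r ^ (2 * q) * sqn ψ := by
      calc sqn ψ * R ^ (2 * q) ≤ _ := hM
        _ ≤ _ := hx
        _ ≤ Fintype.card n * r ^ (2 * q) * sqn ψ := by
            apply mul_le_mul_of_nonneg_right _ hψpos.le
            exact mul_le_mul_of_nonneg_left hm hcard.le
    rw [mul_comm (sqn ψ)] at h7
    exact le_of_mul_le_mul_right h7 hψpos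
  have h8 : (2 * q : ℝ) * Real.log R ≤ Real.log (Fintype.card n) + (2 * q : ℝ) * Real.log r := by
    have h9 := Real.log_le_log (pow_pos hRpos _) h6
    rw [Real.log_mul hcard.ne' (pow_pos hrpos _).ne', Real.log_pow, Real.log_pow] at h9
    push_cast at h9
    exact h9
  have hqpos : (0 : ℝ) < 2 * q := by
    have : (1 : ℝ) ≤ q := by exact_mod_cast hq
    linarith
  have h10 : Real.log R ≤ Real.log (Fintype.card n) / (2 * q) + Real.log r := by
    rw [div_add' _ _ _ hqpos.ne', le_div_iff₀ hqpos]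
    linarith
  have h11 : t * (ex H φ / sqn φ) ≤ t * (ex H ψ / sqn ψ) + 2 * k +
      Real.log (Fintype.card n) / (2 * q) := by linarith
  have h12 : ex H φ / sqn φ ≤ (t * (ex H ψ / sqn ψ) + 2 * k +
      Real.log (Fintype.card n) / (2 * q)) / t := by
    rw [le_div_iff₀ ht0]
    linarith
  refine h12.trans (le_of_eq ?_)
  rw [hk]
  field_simp

end engine

/-- The engine in the form used by the lattice part. -/
theorem engine (z c p : ℕ) : ∃ (w : List (Fin c × ℝ)) (t0 C : ℝ), 0 < t0 ∧ 0 ≤ C ∧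
    ∀ (n I : Type) [Fintype n] [DecidableEq n] [Fintype I] [DecidableEq I] [Nonempty n]
      (h : I → Matrix n n ℂ) (col : I → Fin c) (nb : I → Finset I),
      (∀ i, (h i).IsHermitian) →
      (∀ i (φ : n → ℂ), sqn ((h i).mulVec φ) ≤ sqn φ) →
      (∀ i, (nb i).card ≤ z) →
      (∀ i j, j ∉ nb i → Commute (h i) (h j)) →
      (∀ i j, col i = col j → Commute (h i) (h j)) →
      ∀ t : ℝ, 0 < t → t ≤ t0 → ∀ q : ℕ, 1 ≤ q → ∀ ψ : n → ℂ, ψ ≠ 0 →
      ∀ V : Matrix n n ℂ, V = (w.map (fun b => NormedSpace.exp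
        ((-(b.2 * t)) • ∑ i with col i = b.1, h i))).prod →
      ∃ x : n, ((V * Vᴴ) ^ q).mulVec (Pi.single x 1) ≠ 0 ∧
        ex (∑ i, h i) (((V * Vᴴ) ^ q).mulVec (Pi.single x 1)) /
          sqn (((V * Vᴴ) ^ q).mulVec (Pi.single x 1)) ≤
        ex (∑ i, h i) ψ / sqn ψ + C * Fintype.card I * t ^ (2 * p) +
          Real.log (Fintype.card n) / (2 * q * t) := by
  obtain ⟨w, hw⟩ := exists_good c (max p 1) (le_max_right _ _)
  refine ⟨w, 1, 2 * cst z w, one_pos, by have := cst_nonneg z w; positivity, ?_⟩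
  intro n I _ _ _ _ _ h col nb hh hn hs hnb hcol t ht0 ht1 q hq ψ hψ V hV
  have hVP : V = P (KK h col) w (t : ℂ) := by
    rw [hV]
    unfold P
    congr 2
    funext b
    congr 1
    unfold KK
    ext i j
    simp
  obtain ⟨x, h1, h2⟩ := engine_core h col nb hh hs (fun i => norm_le_one (hn i)) hcol hnb hw ht0 ht1
    hq hψ
  rw [← hVP] at h1 h2
  refine ⟨x, h1, h2.trans ?_⟩
  have h3 : t ^ (2 * max p 1) ≤ t ^ (2 * p) :=
    pow_le_pow_of_le_one ht0.le ht1 (Nat.mul_le_mul_left 2 (le_max_left p 1))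
  have h4 := cst_nonneg z w
  have h5 : 2 * cst z w * Fintype.card I * t ^ (2 * max p 1) ≤
      2 * cst z w * Fintype.card I * t ^ (2 * p) := mul_le_mul_of_nonneg_left h3 (by positivity)
  linarith

end Pool.Agent.Hhelper17.PE
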