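import Pool.Agent.Hhelper17.PE.Engine
import Pool.Agent.Hhelper96.UB.EngineStmt

/-!
The engine and the two-sided bound for `S = V V^*` against `exp (-t H)`, in the notation of the lattice
part.
-/

set_option autoImplicit false
set_option linter.unusedSectionVars false

open scoped BigOperators Matrix.Norms.L2Operator
open Matrix Pool.Agent.Hhelper96.PEPS

namespace Pool.Agent.Hhelper17.PE

section core

variable {n I : Type} [Fintype n] [DecidableEq n] [Fintype I] [DecidableEq I] [Nonempty n] {c : ℕ}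
variable (h : I → Matrix n n ℂ) (col : I → Fin c) (nb : I → Finset I)

theorem halfStep_eq (w : List (Fin c × ℝ)) (t : ℝ) :
    halfStep w h col t = P (KK h col) w (t : ℂ) := by
  unfold halfStep P
  congr 2
  funext b
  congr 1
  unfold KK
  ext i j
  simp

/-- `exp (-k) exp (-t H) ≤ V V^* ≤ exp k exp (-t H)` -/
theorem sandwich_S (hh : ∀ i, (h i).IsHermitian) {s : ℕ} (hs : ∀ i, (nb i).card ≤ s)
    (hn : ∀ i, ‖h i‖ ≤ 1) (hcol : ∀ i j, col i = col j → Commute (h i) (h j))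
    (hnb : ∀ i j, j ∉ nb i → Commute (h i) (h j)) {p : ℕ} {w : List (Fin c × ℝ)}
    (hw : Good c p w) {t : ℝ} (ht0 : 0 ≤ t) (ht1 : t ≤ 1) (φ : n → ℂ) :
    Real.exp (-(cst s w * Fintype.card I * t ^ (2 * p + 1))) *
        ex (NormedSpace.exp ((-t) • ∑ i, h i)) φ ≤
      ex (halfStep w h col t * (halfStep w h col t)ᴴ) φ ∧
    ex (halfStep w h col t * (halfStep w h col t)ᴴ) φ ≤
      Real.exp (cst s w * Fintype.card I * t ^ (2 * p + 1)) *
        ex (NormedSpace.exp ((-t) • ∑ i, h i)) φ := by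
  obtain ⟨H, hH⟩ : ∃ H, H = ∑ i, h i := ⟨_, rfl⟩
  have hHh : H.IsHermitian := by rw [hH]; exact sum_herm h hh
  rw [halfStep_eq]
  obtain ⟨V, hV⟩ : ∃ V, V = P (KK h col) w (t : ℂ) := ⟨_, rfl⟩
  rw [← hV, ← hH]
  obtain ⟨k, hk⟩ : ∃ k : ℝ, k = cst s w * Fintype.card I * t ^ (2 * p + 1) := ⟨_, rfl⟩
  have hk' : (Fintype.card I : ℝ) * cst s w * t ^ (2 * p) * t = k := by
    rw [hk, pow_succ]
    ring
  have hsw := sandwich h col nb hh hs hn hcol hnb hw ht0 ht1
  rw [hk'] at hsw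
  rw [← hk]
  obtain ⟨E, hE⟩ : ∃ E : ℝ → Matrix n n ℂ, E = fun a : ℝ => NormedSpace.exp ((a : ℂ) • H) :=
    ⟨_, rfl⟩
  have hEE : ∀ a b, E a * E b = E (a + b) := by
    intro a b
    rw [hE]
    simp only
    rw [← exp_add_smul]
    congr 2
    push_cast
    rfl
  have hEh : ∀ a, (E a)ᴴ = E a := by
    intro a
    rw [hE]
    exact exp_herm hHh a
  have hE0 : E 0 = 1 := by
    rw [hE]
    simp [NormedSpace.exp_zero]
  have hEt : NormedSpace.exp ((-t) • H) = E (-t) := by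
    rw [hE]
    simp only
    congr 1
  obtain ⟨W, hW⟩ : ∃ W, W = WW h col w t := ⟨_, rfl⟩
  have hWEV : W = E (1 / 2 * t) * V := by
    rw [hW, hE, hV]
    unfold WW
    rw [hH]
  have hWs : Wᴴ = Vᴴ * E (1 / 2 * t) := by
    rw [hWEV, Matrix.conjTranspose_mul, hEh]
  rw [← hW] at hsw
  have h1 := hsw ((E (-(1 / 2 * t))).mulVec φ)
  have h2 : sqn ((E (-(1 / 2 * t))).mulVec φ) = ex (E (-t)) φ := by
    rw [← ex_conj_mul, hEh, hEE]
    have h5 : -(1 / 2 * t) + -(1 / 2 * t) = -t := by ring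
    rw [h5]
  rw [Matrix.mulVec_mulVec, hWs, Matrix.mul_assoc, hEE, add_neg_cancel, hE0, Matrix.mul_one,
    h2, ← ex_mul_conj] at h1
  rw [hEt]
  exact h1

end core

/-- the hypotheses on the local terms -/
def Terms {n I : Type} [Fintype n] [DecidableEq n] [Fintype I] [DecidableEq I] {c : ℕ} (z : ℕ)
    (h : I → Matrix n n ℂ) (col : I → Fin c) (nb : I → Finset I) : Prop :=
  (∀ i, (h i).IsHermitian) ∧ (∀ i (φ : n → ℂ), sqn ((h i).mulVec φ) ≤ sqn φ) ∧
    (∀ i, (nb i).card ≤ z) ∧ (∀ i j, j ∉ nb i → Commute (h i) (h j)) ∧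
    (∀ i j, col i = col j → Commute (h i) (h j))

/-- one list `w` of order `2 p` for both the two-sided bound and the low energy vectors -/
theorem both (z c p : ℕ) (hp : 1 ≤ p) : ∃ (w : List (Fin c × ℝ)) (t₀ C : ℝ), 0 < t₀ ∧ 0 ≤ C ∧
    ∀ (n I : Type) [Fintype n] [DecidableEq n] [Nonempty n] [Fintype I] [DecidableEq I]
      (h : I → Matrix n n ℂ) (col : I → Fin c) (nb : I → Finset I), Terms z h col nb →
      ∀ t, 0 < t → t ≤ t₀ →
      (∀ φ : n → ℂ,
        Real.exp (-(C * Fintype.card I * t ^ (2 * p + 1))) *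
            ex (NormedSpace.exp ((-t) • ∑ i, h i)) φ ≤
          ex (halfStep w h col t * (halfStep w h col t)ᴴ) φ ∧
        ex (halfStep w h col t * (halfStep w h col t)ᴴ) φ ≤
          Real.exp (C * Fintype.card I * t ^ (2 * p + 1)) *
            ex (NormedSpace.exp ((-t) • ∑ i, h i)) φ) ∧
      ∀ q : ℕ, 1 ≤ q → ∀ ψ : n → ℂ, ψ ≠ 0 →
      ∃ x : n, cooled w h col t q x ≠ 0 ∧
        ex (∑ i, h i) (cooled w h col t q x) / sqn (cooled w h col t q x) ≤
          ex (∑ i, h i) ψ / sqn ψ + C * Fintype.card I * t ^ (2 * p) +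
            Real.log (Fintype.card n) / (2 * q * t) := by
  obtain ⟨w, hw⟩ := exists_good c p hp
  refine ⟨w, 1, 2 * cst z w, one_pos, by have := cst_nonneg z w; positivity, ?_⟩
  intro n I _ _ _ _ _ h col nb hT t ht0 ht1
  obtain ⟨hh, hn, hs, hnb, hcol⟩ := hT
  have hc0 := cst_nonneg z w
  constructor
  · intro φ
    obtain ⟨h1, h2⟩ := sandwich_S h col nb hh hs (fun i => norm_le_one (hn i)) hcol hnb hw ht0.le
      ht1 φ
    have hpos : 0 ≤ ex (NormedSpace.exp ((-t) • ∑ i, h i)) φ := by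
      have h3 := (sqn_nonneg ((halfStep w h col t)ᴴ.mulVec φ))
      rw [← ex_mul_conj] at h3
      have h4 := h3.trans h2
      exact nonneg_of_mul_nonneg_right h4 (Real.exp_pos _)
    have hle : cst z w * Fintype.card I * t ^ (2 * p + 1) ≤
        2 * cst z w * Fintype.card I * t ^ (2 * p + 1) := by
      have : 0 ≤ cst z w * Fintype.card I * t ^ (2 * p + 1) := by positivity
      linarith
    constructor
    · refine le_trans (mul_le_mul_of_nonneg_right (Real.exp_le_exp.2 ?_) hpos) h1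
      linarith
    · exact h2.trans (mul_le_mul_of_nonneg_right (Real.exp_le_exp.2 hle) hpos)
  · intro q hq ψ hψ
    obtain ⟨x, h1, h2⟩ := engine_core h col nb hh hs (fun i => norm_le_one (hn i)) hcol hnb hw ht0
      ht1 hq hψ
    rw [← halfStep_eq] at h1 h2
    exact ⟨x, h1, h2⟩

/-- the statement used in the assembly -/
theorem engineStmt (z c p : ℕ) : EngineStmt z c p := by
  obtain ⟨w, t₀, C, h1, h2, h3⟩ := both z c (max p 1) (le_max_right _ _)
  refine ⟨w, min t₀ 1, C, lt_min h1 one_pos, h2, ?_⟩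
  intro n I _ _ _ _ _ h col nb hh hn hs hnb hcol t ht0 ht1 q hq ψ hψ
  obtain ⟨x, h4, h5⟩ := (h3 n I h col nb ⟨hh, hn, hs, hnb, hcol⟩ t ht0
    (ht1.trans (min_le_left _ _))).2 q hq ψ hψ
  refine ⟨x, h4, h5.trans ?_⟩
  have h6 : t ^ (2 * max p 1) ≤ t ^ (2 * p) :=
    pow_le_pow_of_le_one ht0.le (ht1.trans (min_le_right _ _))
      (Nat.mul_le_mul_left 2 (le_max_left p 1))
  have h7 : C * Fintype.card I * t ^ (2 * max p 1) ≤ C * Fintype.card I * t ^ (2 * p) :=
    mul_le_mul_of_nonneg_left h6 (by positivity)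
  linarith

end Pool.Agent.Hhelper17.PE
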