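import Pool.Agent.Hhelper17.PE.Order

/-!
Locality: conjugation of a local term by a product of exponentials of sums of commuting local terms has
a norm that is bounded independently of the number of terms.
-/

set_option autoImplicit false
set_option linter.unusedSectionVars false

open scoped BigOperators

namespace Pool.Agent.Hhelper17.PE

section normexp

variable {𝔸 : Type} [NormedRing 𝔸] [NormedAlgebra ℂ 𝔸] [CompleteSpace 𝔸] [NormOneClass 𝔸]

theorem norm_exp_le (x : 𝔸) : ‖NormedSpace.exp x‖ ≤ Real.exp ‖x‖ := by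
  have h1 := NormedSpace.exp_series_hasSum_exp' (𝕂 := ℂ) x
  have h2 := NormedSpace.norm_expSeries_summable' (𝕂 := ℂ) x
  have h3 : Summable (fun n : ℕ => ‖x‖ ^ n / (n.factorial : ℝ)) :=
    Real.summable_pow_div_factorial ‖x‖
  rw [← h1.tsum_eq]
  refine (norm_tsum_le_tsum_norm h2).trans ?_
  rw [Real.exp_eq_exp_ℝ, NormedSpace.exp_eq_tsum_div]
  refine Summable.tsum_le_tsum (fun n => ?_) h2 h3
  rw [norm_smul, norm_inv, Complex.norm_natCast, div_eq_inv_mul]
  exact mul_le_mul_of_nonneg_left (norm_pow_le x n) (by positivity)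

end normexp

section conj

variable {c : ℕ} {I : Type} [Fintype I] [DecidableEq I]
variable {𝔸 : Type} [NormedRing 𝔸] [NormedAlgebra ℂ 𝔸] [CompleteSpace 𝔸]

/-- the sum of the terms of one colour -/
def KK (h : I → 𝔸) (col : I → Fin c) (b : Fin c) : 𝔸 := ∑ i with col i = b, h i

/-- conjugation by a product -/
noncomputable def tau (K : Fin c → 𝔸) (l : List (Fin c × ℝ)) (z : ℂ) (x : 𝔸) : 𝔸 :=
  P K l.reverse (-z) * x * P K l z

theorem tau_nil (K : Fin c → 𝔸) (z : ℂ) (x : 𝔸) : tau K [] z x = x := by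
  unfold tau
  simp [P_nil]

theorem tau_cons (K : Fin c → 𝔸) (b : Fin c × ℝ) (l : List (Fin c × ℝ)) (z : ℂ) (x : 𝔸) :
    tau K (b :: l) z x = tau K l z (NormedSpace.exp (((b.2 : ℂ) * z) • K b.1) * x *
      NormedSpace.exp ((-((b.2 : ℂ) * z)) • K b.1)) := by
  unfold tau
  rw [List.reverse_cons, P_append, P_single, P_cons]
  have h1 : (-((b.2 : ℂ) * -z)) = (b.2 : ℂ) * z := by ring
  rw [h1]
  simp only [mul_assoc]

theorem tau_add (K : Fin c → 𝔸) (l : List (Fin c × ℝ)) (z : ℂ) (x y : 𝔸) :
    tau K l z (x + y) = tau K l z x + tau K l z y := by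
  unfold tau
  rw [mul_add, add_mul]

theorem tau_smul (K : Fin c → 𝔸) (l : List (Fin c × ℝ)) (z a : ℂ) (x : 𝔸) :
    tau K l z (a • x) = a • tau K l z x := by
  unfold tau
  rw [mul_smul_comm, smul_mul_assoc]

theorem tau_sum (K : Fin c → 𝔸) (l : List (Fin c × ℝ)) (z : ℂ) {ι : Type} (s : Finset ι)
    (x : ι → 𝔸) : tau K l z (∑ i ∈ s, x i) = ∑ i ∈ s, tau K l z (x i) := by
  unfold tau
  rw [Finset.mul_sum, Finset.sum_mul]

theorem tau_diff (K : Fin c → 𝔸) (l : List (Fin c × ℝ)) (x : 𝔸) :
    Differentiable ℂ (fun z => tau K l z x) := by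
  unfold tau
  have h1 : Differentiable ℂ (fun z : ℂ => P K l.reverse (-z)) :=
    (P_diff K l.reverse).comp differentiable_neg
  exact (h1.mul_const x).mul (P_diff K l)

end conj

section loc

variable {c : ℕ} {I : Type} [Fintype I] [DecidableEq I]
variable {𝔸 : Type} [NormedRing 𝔸] [NormedAlgebra ℂ 𝔸] [CompleteSpace 𝔸] [NormOneClass 𝔸]
variable (h : I → 𝔸) (col : I → Fin c) (nb : I → Finset I)

/-- one step of the conjugation -/
theorem conj_step (hn : ∀ i, ‖h i‖ ≤ 1) (hcol : ∀ i j, col i = col j → Commute (h i) (h j))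
    (hnb : ∀ i j, j ∉ nb i → Commute (h i) (h j)) (x : 𝔸) (X : Finset I)
    (hX : ∀ j, j ∉ X → Commute (h j) x) (a : ℂ) (b : Fin c) :
    ‖NormedSpace.exp (a • KK h col b) * x * NormedSpace.exp ((-a) • KK h col b)‖ ≤
      Real.exp (2 * ‖a‖ * X.card) * ‖x‖ ∧
    ∀ j, j ∉ X ∪ X.biUnion nb → Commute (h j)
      (NormedSpace.exp (a • KK h col b) * x * NormedSpace.exp ((-a) • KK h col b)) := by
  let _i : NormedAlgebra ℚ 𝔸 := NormedAlgebra.restrictScalars ℚ ℂ 𝔸
  obtain ⟨KX, hKX⟩ : ∃ KX, KX = ∑ i ∈ (Finset.univ.filter (fun i => col i = b)).filter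
    (fun i => i ∈ X), h i := ⟨_, rfl⟩
  obtain ⟨KY, hKY⟩ : ∃ KY, KY = ∑ i ∈ (Finset.univ.filter (fun i => col i = b)).filter
    (fun i => ¬ i ∈ X), h i := ⟨_, rfl⟩
  have hK : KK h col b = KX + KY := by
    unfold KK
    rw [hKX, hKY, Finset.sum_filter_add_sum_filter_not]
  have hc : Commute KX KY := by
    rw [hKX, hKY]
    apply Commute.sum_left
    intro i hi
    apply Commute.sum_right
    intro j hj
    simp only [Finset.mem_filter, Finset.mem_univ, true_and] at hi hj
    exact hcol i j (hi.1.trans hj.1.symm)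
  have hxY : Commute KY x := by
    rw [hKY]
    apply Commute.sum_left
    intro i hi
    simp only [Finset.mem_filter, Finset.mem_univ, true_and] at hi
    exact hX i hi.2
  have e1 : NormedSpace.exp (a • KK h col b) =
      NormedSpace.exp (a • KX) * NormedSpace.exp (a • KY) := by
    rw [hK, smul_add]
    exact NormedSpace.exp_add_of_commute ((hc.smul_left a).smul_right a)
  have e2 : NormedSpace.exp ((-a) • KK h col b) =
      NormedSpace.exp ((-a) • KY) * NormedSpace.exp ((-a) • KX) := by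
    rw [hK, smul_add, add_comm]
    exact NormedSpace.exp_add_of_commute ((hc.symm.smul_left (-a)).smul_right (-a))
  have e3 : NormedSpace.exp (a • KK h col b) * x * NormedSpace.exp ((-a) • KK h col b) =
      NormedSpace.exp (a • KX) * x * NormedSpace.exp ((-a) • KX) := by
    have h1 : Commute (NormedSpace.exp (a • KY)) x := (hxY.smul_left a).exp_left
    have h2 := exp_mul_neg a KY
    calc NormedSpace.exp (a • KK h col b) * x * NormedSpace.exp ((-a) • KK h col b)
        = NormedSpace.exp (a • KX) * (NormedSpace.exp (a • KY) * x) *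
          (NormedSpace.exp ((-a) • KY) * NormedSpace.exp ((-a) • KX)) := by
          rw [e1, e2]
          simp only [mul_assoc]
      _ = NormedSpace.exp (a • KX) * x * ((NormedSpace.exp (a • KY) *
          NormedSpace.exp ((-a) • KY)) * NormedSpace.exp ((-a) • KX)) := by
          rw [h1.eq]
          simp only [mul_assoc]
      _ = _ := by rw [h2, one_mul]
  have hnX : ‖KX‖ ≤ X.card := by
    rw [hKX]
    refine (norm_sum_le _ _).trans ?_
    refine (Finset.sum_le_card_nsmul _ _ 1 (fun i _ => hn i)).trans ?_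
    rw [nsmul_eq_mul, mul_one]
    exact_mod_cast Finset.card_le_card (fun i hi => (Finset.mem_filter.1 hi).2)
  have hcard : (0 : ℝ) ≤ X.card := by positivity
  rw [e3]
  constructor
  · have h1 : ‖NormedSpace.exp (a • KX)‖ ≤ Real.exp (‖a‖ * X.card) := by
      refine (norm_exp_le _).trans (Real.exp_le_exp.2 ?_)
      rw [norm_smul]
      exact mul_le_mul_of_nonneg_left hnX (norm_nonneg _)
    have h2 : ‖NormedSpace.exp ((-a) • KX)‖ ≤ Real.exp (‖a‖ * X.card) := by
      refine (norm_exp_le _).trans (Real.exp_le_exp.2 ?_)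
      rw [norm_smul, norm_neg]
      exact mul_le_mul_of_nonneg_left hnX (norm_nonneg _)
    calc ‖NormedSpace.exp (a • KX) * x * NormedSpace.exp ((-a) • KX)‖
        ≤ ‖NormedSpace.exp (a • KX)‖ * ‖x‖ * ‖NormedSpace.exp ((-a) • KX)‖ :=
          (norm_mul_le _ _).trans (mul_le_mul_of_nonneg_right (norm_mul_le _ _) (norm_nonneg _))
      _ ≤ Real.exp (‖a‖ * X.card) * ‖x‖ * Real.exp (‖a‖ * X.card) := by
          gcongr
      _ = Real.exp (2 * ‖a‖ * X.card) * ‖x‖ := by
          have : Real.exp (2 * ‖a‖ * X.card) = Real.exp (‖a‖ * X.card) * Real.exp (‖a‖ * X.card) := by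
            rw [← Real.exp_add]
            congr 1
            ring
          rw [this]
          ring
  · intro j hj
    rw [Finset.mem_union, not_or] at hj
    have h1 : Commute (h j) KX := by
      rw [hKX]
      apply Commute.sum_right
      intro i hi
      have hi' := (Finset.mem_filter.1 hi).2
      apply Commute.symm
      apply hnb
      intro hji
      exact hj.2 (Finset.mem_biUnion.2 ⟨i, hi', hji⟩)
    have h2 : Commute (h j) (NormedSpace.exp (a • KX)) := (h1.smul_right a).exp_right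
    have h3 : Commute (h j) (NormedSpace.exp ((-a) • KX)) := (h1.smul_right (-a)).exp_right
    exact (h2.mul_right (hX j hj.1)).mul_right h3

theorem card_grow {s : ℕ} (hs : ∀ i, (nb i).card ≤ s) (X : Finset I) :
    ((X ∪ X.biUnion nb).card : ℝ) ≤ X.card * (1 + s) := by
  have h1 : (X ∪ X.biUnion nb).card ≤ X.card + X.card * s :=
    (Finset.card_union_le _ _).trans (Nat.add_le_add_left (Finset.card_biUnion_le_card_mul _ _ _
      (fun i _ => hs i)) _)
  have h2 : ((X ∪ X.biUnion nb).card : ℝ) ≤ X.card + X.card * s := by exact_mod_cast h1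
  linarith

/-- total coefficient of a list -/
def wl (l : List (Fin c × ℝ)) : ℝ := (l.map (fun b => |b.2|)).sum

theorem wl_cons (b : Fin c × ℝ) (l : List (Fin c × ℝ)) : wl (b :: l) = |b.2| + wl l := by
  unfold wl
  rw [List.map_cons, List.sum_cons]

theorem wl_nonneg (l : List (Fin c × ℝ)) : 0 ≤ wl l := by
  induction l with
  | nil => simp [wl]
  | cons b l ih =>
    rw [wl_cons]
    positivity

theorem norm_tau_le {s : ℕ} (hs : ∀ i, (nb i).card ≤ s) (hn : ∀ i, ‖h i‖ ≤ 1)
    (hcol : ∀ i j, col i = col j → Commute (h i) (h j))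
    (hnb : ∀ i j, j ∉ nb i → Commute (h i) (h j)) (z : ℂ) (l : List (Fin c × ℝ)) :
    ∀ (x : 𝔸) (X : Finset I), (∀ j, j ∉ X → Commute (h j) x) →
      ‖tau (KK h col) l z x‖ ≤
        Real.exp (2 * ‖z‖ * wl l * (X.card * (1 + s) ^ l.length)) * ‖x‖ := by
  induction l with
  | nil =>
    intro x X _
    rw [tau_nil]
    simp [wl]
  | cons b l ih =>
    intro x X hX
    obtain ⟨h1, h2⟩ := conj_step h col nb hn hcol hnb x X hX ((b.2 : ℂ) * z) b.1
    rw [tau_cons]
    refine (ih _ _ h2).trans ?_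
    have h3 := card_grow nb hs X
    have hw := wl_nonneg l
    have hs0 : (0 : ℝ) ≤ s := by positivity
    have hX0 : (0 : ℝ) ≤ X.card := by positivity
    have hz0 := norm_nonneg z
    have hx0 := norm_nonneg x
    calc Real.exp (2 * ‖z‖ * wl l * (((X ∪ X.biUnion nb).card : ℝ) * (1 + s) ^ l.length)) *
          ‖NormedSpace.exp (((b.2 : ℂ) * z) • KK h col b.1) * x *
            NormedSpace.exp ((-((b.2 : ℂ) * z)) • KK h col b.1)‖
        ≤ Real.exp (2 * ‖z‖ * wl l * ((X.card * (1 + s)) * (1 + s) ^ l.length)) *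
          (Real.exp (2 * ‖(b.2 : ℂ) * z‖ * X.card) * ‖x‖) := by
          gcongr
      _ = Real.exp (2 * ‖z‖ * wl l * ((X.card * (1 + s)) * (1 + s) ^ l.length) +
          2 * ‖(b.2 : ℂ) * z‖ * X.card) * ‖x‖ := by
          rw [Real.exp_add]
          ring
      _ ≤ Real.exp (2 * ‖z‖ * wl (b :: l) * (X.card * (1 + s) ^ (b :: l).length)) * ‖x‖ := by
          apply mul_le_mul_of_nonneg_right _ hx0
          apply Real.exp_le_exp.2
          rw [wl_cons, List.length_cons, pow_succ, norm_mul, Complex.norm_real, Real.norm_eq_abs]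
          have h4 : (1 : ℝ) ≤ (1 + s) ^ l.length * (1 + s) := by
            have h5 : (1 : ℝ) ≤ 1 + s := by linarith
            have h6 : (1 : ℝ) ≤ (1 + s) ^ l.length := one_le_pow₀ h5
            nlinarith
          have h7 : 2 * (|b.2| * ‖z‖) * X.card ≤
              2 * (|b.2| * ‖z‖) * X.card * ((1 + s) ^ l.length * (1 + s)) := by
            apply le_mul_of_one_le_right _ h4
            positivity
          nlinarith

end loc

end Pool.Agent.Hhelper17.PE
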