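import Pool.Agent.Hhelper17.PE.Near
import Pool.Agent.Hhelper17.PE.Local

/-!
Factorial majorants: conjugation of a local term by a product of exponentials of sums of local terms
(not necessarily commuting) is bounded uniformly in the number of terms, for small times.
-/

set_option autoImplicit false
set_option linter.unusedSectionVars false

open scoped BigOperators

namespace Pool.Agent.Hhelper17.PE

section words

variable {c : ℕ} {𝔸 : Type} [NormedRing 𝔸] [NormedAlgebra ℂ 𝔸] [CompleteSpace 𝔸]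
variable (K : Fin c → 𝔸)

/-- nested commutators, the first letter acts first -/
def adl : List (Fin c) → 𝔸 → 𝔸
  | [], x => x
  | b :: W, x => adl W (ad (K b) x)

theorem ad_add (A x y : 𝔸) : ad A (x + y) = ad A x + ad A y := by
  unfold ad
  rw [mul_add, add_mul]
  abel

theorem ad_smul (A : 𝔸) (a : ℂ) (x : 𝔸) : ad A (a • x) = a • ad A x := by
  unfold ad
  rw [mul_smul_comm, smul_mul_assoc, smul_sub]

theorem ad_cont (A : 𝔸) : Continuous (ad A) := by
  unfold ad
  exact (continuous_const.mul continuous_id).sub (continuous_id.mul continuous_const)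

theorem adl_add (W : List (Fin c)) : ∀ x y : 𝔸, adl K W (x + y) = adl K W x + adl K W y := by
  induction W with
  | nil => intro x y; rfl
  | cons b W ih =>
    intro x y
    have : adl K (b :: W) (x + y) = adl K W (ad (K b) (x + y)) := rfl
    rw [this, ad_add, ih]
    rfl

theorem adl_smul (W : List (Fin c)) (a : ℂ) : ∀ x : 𝔸, adl K W (a • x) = a • adl K W x := by
  induction W with
  | nil => intro x; rfl
  | cons b W ih =>
    intro x
    have : adl K (b :: W) (a • x) = adl K W (ad (K b) (a • x)) := rfl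
    rw [this, ad_smul, ih]
    rfl

theorem adl_cont (W : List (Fin c)) : Continuous (adl K W) := by
  induction W with
  | nil => exact continuous_id
  | cons b W ih => exact ih.comp (ad_cont (K b))

/-- nested commutator as a continuous linear map -/
noncomputable def adlL (W : List (Fin c)) : 𝔸 →L[ℂ] 𝔸 where
  toFun := adl K W
  map_add' := adl_add K W
  map_smul' := adl_smul K W
  cont := adl_cont K W

theorem adl_append (V W : List (Fin c)) : ∀ x : 𝔸, adl K (V ++ W) x = adl K W (adl K V x) := by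
  induction V with
  | nil => intro x; rfl
  | cons b V ih =>
    intro x
    exact ih (ad (K b) x)

theorem adl_replicate (b : Fin c) (n : ℕ) : ∀ x : 𝔸,
    adl K (List.replicate n b) x = (ad (K b))^[n] x := by
  induction n with
  | zero => intro x; rfl
  | succ n ih =>
    intro x
    rw [List.replicate_succ, Function.iterate_succ_apply]
    exact ih _

/-- Taylor series of the conjugation -/
theorem conj_taylor (A x : 𝔸) (a : ℂ) :
    HasSum (fun n : ℕ => ((n.factorial : ℂ)⁻¹ * a ^ n) • (ad A)^[n] x)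
      (NormedSpace.exp (a • A) * x * NormedSpace.exp ((-a) • A)) := by
  obtain ⟨F, hF⟩ : ∃ F : 𝔸 → ℂ → 𝔸, F = fun x z => NormedSpace.exp ((1 * z) • A) * x *
    NormedSpace.exp ((-1 * z) • A) := ⟨_, rfl⟩
  have hd : ∀ x z, HasDerivAt (F x) (F (ad A x) z) z := by
    intro x z
    rw [hF]
    have := hasDerivAt_conj 1 A x z
    rwa [one_smul] at this
  have hdiff : ∀ x, Differentiable ℂ (F x) := fun x z => (hd x z).differentiableAt
  have hit : ∀ n : ℕ, iteratedDeriv n (F x) = F ((ad A)^[n] x) := by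
    intro n
    induction n with
    | zero => rw [iteratedDeriv_zero]; rfl
    | succ n ih =>
      rw [iteratedDeriv_succ, ih, Function.iterate_succ_apply']
      funext z
      exact (hd _ z).deriv
  have h1 := Complex.hasSum_taylorSeries_of_entire (hdiff x) 0 a
  have e1 : F x a = NormedSpace.exp (a • A) * x * NormedSpace.exp ((-a) • A) := by
    rw [hF]
    simp only [one_mul, neg_mul]
  rw [e1] at h1
  refine h1.congr_fun ?_
  intro n
  rw [hit, sub_zero]
  have e2 : F ((ad A)^[n] x) 0 = (ad A)^[n] x := by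
    rw [hF]
    simp [NormedSpace.exp_zero]
  rw [e2, smul_smul]

/-- factorial majorant -/
def Maj (x : 𝔸) (C ρ : ℝ) : Prop :=
  ∀ W : List (Fin c), ‖adl K W x‖ ≤ C * ρ ^ W.length * (W.length.factorial : ℝ)

theorem Maj.conj {x : 𝔸} {C ρ : ℝ} (hC : 0 ≤ C) (hρ : 0 ≤ ρ) (hx : Maj K x C ρ) (a : ℂ)
    (ha : ‖a‖ * ρ < 1) (b : Fin c) :
    Maj K (NormedSpace.exp (a • K b) * x * NormedSpace.exp ((-a) • K b))
      (C / (1 - ‖a‖ * ρ)) (ρ / (1 - ‖a‖ * ρ)) := by
  intro W
  obtain ⟨r, hr⟩ : ∃ r, r = ‖a‖ * ρ := ⟨_, rfl⟩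
  rw [← hr] at ha ⊢
  have hr0 : 0 ≤ r := by rw [hr]; positivity
  have h1 := (conj_taylor (K b) x a).mapL (adlL K W)
  have hrn : ‖r‖ < 1 := by rwa [Real.norm_of_nonneg hr0]
  have h2 := (hasSum_choose_mul_geometric_of_norm_lt_one W.length hrn).mul_left
    (C * ρ ^ W.length * (W.length.factorial : ℝ))
  have h3 : ∀ n : ℕ, ‖(adlL K W) (((n.factorial : ℂ)⁻¹ * a ^ n) • (ad (K b))^[n] x)‖ ≤
      C * ρ ^ W.length * (W.length.factorial : ℝ) * (((n + W.length).choose W.length : ℕ) * r ^ n) := by
    intro n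
    have e1 : (adlL K W) (((n.factorial : ℂ)⁻¹ * a ^ n) • (ad (K b))^[n] x) =
        ((n.factorial : ℂ)⁻¹ * a ^ n) • adl K (List.replicate n b ++ W) x := by
      rw [map_smul, adl_append, adl_replicate]
      rfl
    have e2 := hx (List.replicate n b ++ W)
    rw [List.length_append, List.length_replicate] at e2
    have e3 : ((n + W.length).factorial : ℝ) = ((n + W.length).choose W.length : ℕ) *
        (n.factorial * W.length.factorial) := by
      have := Nat.add_choose_mul_factorial_mul_factorial n W.length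
      rw [← this]
      push_cast
      ring
    have hn0 : (0 : ℝ) < n.factorial := by exact_mod_cast n.factorial_pos
    rw [e1, norm_smul, norm_mul, norm_inv, norm_pow, Complex.norm_natCast]
    calc (n.factorial : ℝ)⁻¹ * ‖a‖ ^ n * ‖adl K (List.replicate n b ++ W) x‖
        ≤ (n.factorial : ℝ)⁻¹ * ‖a‖ ^ n * (C * ρ ^ (n + W.length) *
          ((n + W.length).factorial : ℝ)) := by gcongr
      _ = _ := by
        rw [e3, hr, mul_pow, pow_add]
        field_simp
  have h4 : ‖adl K W (NormedSpace.exp (a • K b) * x * NormedSpace.exp ((-a) • K b))‖ ≤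
      C * ρ ^ W.length * (W.length.factorial : ℝ) * (1 / (1 - r) ^ (W.length + 1)) := by
    have h5 := tsum_of_norm_bounded h2 h3
    rw [h1.tsum_eq] at h5
    exact h5
  refine h4.trans (le_of_eq ?_)
  have h5 : 1 - r ≠ 0 := by linarith
  rw [div_pow, pow_succ]
  field_simp

/-- conjugation by a product of exponentials -/
theorem Maj.tau {z : ℂ} (l : List (Fin c × ℝ)) : ∀ (x : 𝔸) (C ρ : ℝ), 0 ≤ C → 0 ≤ ρ → Maj K x C ρ →
    ‖z‖ * wl l * ρ < 1 → ‖tau K l z x‖ ≤ C / (1 - ‖z‖ * wl l * ρ) := by
  induction l with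
  | nil =>
    intro x C ρ hC hρ hx _
    have h1 := hx []
    rw [tau_nil]
    have h2 : wl ([] : List (Fin c × ℝ)) = 0 := by simp [wl]
    rw [h2]
    simpa [adl] using h1
  | cons b l ih =>
    intro x C ρ hC hρ hx hz
    rw [tau_cons]
    have hz0 := norm_nonneg z
    have hw := wl_nonneg l
    have hb := abs_nonneg b.2
    rw [wl_cons] at hz ⊢
    obtain ⟨r, hr⟩ : ∃ r, r = ‖(b.2 : ℂ) * z‖ * ρ := ⟨_, rfl⟩
    have hr' : r = |b.2| * ‖z‖ * ρ := by
      rw [hr, norm_mul, Complex.norm_real, Real.norm_eq_abs]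
    obtain ⟨v, hv⟩ : ∃ v, v = ‖z‖ * wl l * ρ := ⟨_, rfl⟩
    have hv0 : 0 ≤ v := by rw [hv]; positivity
    have e1 : ‖z‖ * (|b.2| + wl l) * ρ = r + v := by
      rw [hr', hv]
      ring
    rw [e1] at hz ⊢
    have hr1 : r < 1 := by linarith
    have h1 := Maj.conj K hC hρ hx ((b.2 : ℂ) * z) (by rw [← hr]; exact hr1) b.1
    rw [← hr] at h1
    have hpos : 0 < 1 - r := by linarith
    have e2 : ‖z‖ * wl l * (ρ / (1 - r)) = v / (1 - r) := by
      rw [hv]
      ring
    have h2 := ih _ _ _ (div_nonneg hC hpos.le) (div_nonneg hρ hpos.le) h1 (by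
      rw [e2, div_lt_one hpos]
      linarith)
    refine h2.trans (le_of_eq ?_)
    rw [e2]
    have hpos2 : 0 < 1 - (r + v) := by linarith
    have e3 : 1 - v / (1 - r) = (1 - (r + v)) / (1 - r) := by
      field_simp
      ring
    rw [e3]
    field_simp

end words

section loc

variable {c : ℕ} {I : Type} [Fintype I] [DecidableEq I]
variable {𝔸 : Type} [NormedRing 𝔸] [NormedAlgebra ℂ 𝔸] [CompleteSpace 𝔸]
variable (h : I → 𝔸) (A : Fin c → Finset I) (nb : I → Finset I)

theorem adl_sum (K : Fin c → 𝔸) (W : List (Fin c)) {ι : Type} (s : Finset ι) (x : ι → 𝔸) :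
    adl K W (∑ i ∈ s, x i) = ∑ i ∈ s, adl K W (x i) := by
  have := map_sum (adlL K W) x s
  exact this

theorem adl_zero (K : Fin c → 𝔸) (W : List (Fin c)) : adl K W 0 = 0 := map_zero (adlL K W)

/-- nested commutators with sums of local terms -/
theorem adl_le {s : ℕ} (hs : ∀ i, (nb i).card ≤ s) (hn : ∀ i, ‖h i‖ ≤ 1)
    (hnb : ∀ i j, j ∉ nb i → Commute (h i) (h j)) (W : List (Fin c)) :
    ∀ (k : ℕ) (x : 𝔸) (X : Finset I), X.card ≤ k * s → (∀ j, j ∉ X → Commute (h j) x) →
      ‖adl (fun b => ∑ i ∈ A b, h i) W x‖ ≤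
        ‖x‖ * (2 * s : ℝ) ^ W.length * (k.ascFactorial W.length : ℕ) := by
  induction W with
  | nil =>
    intro k x X _ _
    simp [adl]
  | cons b W ih =>
    intro k x X hX hc
    have e1 : ad (∑ i ∈ A b, h i) x = ∑ j ∈ (A b).filter (fun j => j ∈ X), ad (h j) x := by
      have e2 : ad (∑ i ∈ A b, h i) x = ∑ j ∈ A b, ad (h j) x := by
        unfold ad
        rw [Finset.sum_mul, Finset.mul_sum, ← Finset.sum_sub_distrib]
      rw [e2, ← Finset.sum_filter_add_sum_filter_not (A b) (fun j => j ∈ X)]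
      have e3 : ∑ j ∈ (A b).filter (fun j => ¬ j ∈ X), ad (h j) x = 0 := by
        apply Finset.sum_eq_zero
        intro j hj
        rw [Finset.mem_filter] at hj
        unfold ad
        rw [(hc j hj.2).eq, sub_self]
      rw [e3, add_zero]
    have e4 : adl (fun b => ∑ i ∈ A b, h i) (b :: W) x =
        ∑ j ∈ (A b).filter (fun j => j ∈ X), adl (fun b => ∑ i ∈ A b, h i) W (ad (h j) x) := by
      rw [← adl_sum, ← e1]
      rfl
    rw [e4]
    refine (norm_sum_le _ _).trans ?_
    have h1 : ∀ j ∈ (A b).filter (fun j => j ∈ X),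
        ‖adl (fun b => ∑ i ∈ A b, h i) W (ad (h j) x)‖ ≤
          (2 * ‖x‖) * (2 * s : ℝ) ^ W.length * ((k + 1).ascFactorial W.length : ℕ) := by
      intro j hj
      rw [Finset.mem_filter] at hj
      have h2 := ih (k + 1) (ad (h j) x) (X ∪ nb j) (by
        refine (Finset.card_union_le _ _).trans ?_
        have := hs j
        rw [Nat.succ_mul]
        omega) (by
        intro i hi
        rw [Finset.mem_union, not_or] at hi
        have h3 : Commute (h i) (h j) := (hnb j i hi.2).symm
        have h4 : Commute (h i) x := hc i hi.1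
        unfold ad
        exact (h3.mul_right h4).sub_right (h4.mul_right h3))
      refine h2.trans ?_
      have h3 : ‖ad (h j) x‖ ≤ 2 * ‖x‖ := by
        unfold ad
        have h4 := hn j
        have h5 := norm_nonneg x
        calc ‖h j * x - x * h j‖ ≤ ‖h j * x‖ + ‖x * h j‖ := norm_sub_le _ _
          _ ≤ ‖h j‖ * ‖x‖ + ‖x‖ * ‖h j‖ := add_le_add (norm_mul_le _ _) (norm_mul_le _ _)
          _ ≤ 1 * ‖x‖ + ‖x‖ * 1 := by gcongr
          _ = _ := by ring
      gcongr
    refine (Finset.sum_le_card_nsmul _ _ _ h1).trans ?_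
    rw [nsmul_eq_mul]
    have h2 : (((A b).filter (fun j => j ∈ X)).card : ℝ) ≤ k * s := by
      have h3 : ((A b).filter (fun j => j ∈ X)).card ≤ X.card :=
        Finset.card_le_card (fun j hj => (Finset.mem_filter.1 hj).2)
      exact_mod_cast h3.trans hX
    have h3 : ((k.ascFactorial (W.length + 1) : ℕ) : ℝ) =
        k * ((k + 1).ascFactorial W.length : ℕ) := by
      have := Nat.succ_ascFactorial k W.length
      rw [Nat.ascFactorial_succ, ← this]
      push_cast
      rfl
    rw [List.length_cons, h3, pow_succ]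
    have h5 := norm_nonneg x
    calc (((A b).filter (fun j => j ∈ X)).card : ℝ) *
          ((2 * ‖x‖) * (2 * s : ℝ) ^ W.length * ((k + 1).ascFactorial W.length : ℕ))
        ≤ (k * s) * ((2 * ‖x‖) * (2 * s : ℝ) ^ W.length *
          ((k + 1).ascFactorial W.length : ℕ)) := by gcongr
      _ = _ := by ring

/-- conjugation of a local term -/
theorem norm_tau_term {s : ℕ} (hs : ∀ i, (nb i).card ≤ s) (hn : ∀ i, ‖h i‖ ≤ 1)
    (hnb : ∀ i j, j ∉ nb i → Commute (h i) (h j)) (l : List (Fin c × ℝ)) {z : ℂ}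
    (hz : ‖z‖ * wl l * (2 * s) ≤ 1 / 2) (i : I) :
    ‖tau (fun b => ∑ i ∈ A b, h i) l z (h i)‖ ≤ 2 := by
  have h1 : Maj (fun b => ∑ i ∈ A b, h i) (h i) 1 (2 * s) := by
    intro W
    have h2 := adl_le h A nb hs hn hnb W 1 (h i) (nb i) (by rw [one_mul]; exact hs i)
      (fun j hj => (hnb i j hj).symm)
    rw [Nat.one_ascFactorial] at h2
    refine h2.trans ?_
    have h3 := hn i
    gcongr
  have h2 := Maj.tau _ l (h i) 1 (2 * s) zero_le_one (by positivity) h1 (by linarith)
  refine h2.trans ?_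
  rw [div_le_iff₀ (by linarith)]
  linarith

end loc

end Pool.Agent.Hhelper17.PE
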