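import Pool.Agent.Hhelper17.PE.Order

/-!
Entire functions that agree to order `m` at `0`, and the cut lemma: if `R` is far away from `H₀` then
`exp (-z (Hₐ + R)) exp (z Hₐ) exp (-z (H₀ + Hₐ))` agrees with `exp (-z (H₀ + Hₐ + R))` to high order.
-/

set_option autoImplicit false
set_option linter.unusedSectionVars false

open scoped BigOperators

namespace Pool.Agent.Hhelper17.PE

section near

variable {𝔸 : Type} [NormedRing 𝔸] [NormedAlgebra ℂ 𝔸] [CompleteSpace 𝔸]

/-- `f = g + z ^ m r` with `r` entire -/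
def Near (m : ℕ) (f g : ℂ → 𝔸) : Prop :=
  ∃ r : ℂ → 𝔸, Differentiable ℂ r ∧ ∀ z, f z = g z + z ^ m • r z

theorem Near.refl (m : ℕ) (f : ℂ → 𝔸) : Near m f f :=
  ⟨fun _ => 0, differentiable_const 0, fun z => by simp⟩

theorem Near.trans {m : ℕ} {f g k : ℂ → 𝔸} (h1 : Near m f g) (h2 : Near m g k) : Near m f k := by
  obtain ⟨r, hr, h1⟩ := h1
  obtain ⟨s, hs, h2⟩ := h2
  refine ⟨fun z => s z + r z, hs.add hr, fun z => ?_⟩
  rw [h1, h2, smul_add, add_assoc]

theorem Near.mul {m : ℕ} {f g f' g' : ℂ → 𝔸} (hg : Differentiable ℂ g)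
    (hg' : Differentiable ℂ g') (h : Near m f g) (h' : Near m f' g') :
    Near m (fun z => f z * f' z) (fun z => g z * g' z) := by
  obtain ⟨r, hr, h1⟩ := h
  obtain ⟨s, hs, h2⟩ := h'
  refine ⟨fun z => r z * g' z + g z * s z + z ^ m • (r z * s z),
    ((hr.mul hg').add (hg.mul hs)).add ((differentiable_id.pow m).smul (hr.mul hs)), fun z => ?_⟩
  simp only
  rw [h1, h2]
  simp only [add_mul, mul_add, smul_add, smul_mul_assoc, mul_smul_comm, smul_smul]
  abel

theorem Near.congr {m : ℕ} {f g f' g' : ℂ → 𝔸} (h : Near m f g) (hf : ∀ z, f z = f' z)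
    (hg : ∀ z, g z = g' z) : Near m f' g' := by
  obtain ⟨r, hr, h1⟩ := h
  exact ⟨r, hr, fun z => by rw [← hf, ← hg, h1]⟩

theorem Near.scale {m : ℕ} {f g : ℂ → 𝔸} (h : Near m f g) (u : ℂ) :
    Near m (fun z => f (u * z)) (fun z => g (u * z)) := by
  obtain ⟨r, hr, h1⟩ := h
  refine ⟨fun z => u ^ m • r (u * z), (hr.comp (differentiable_id.const_mul u)).const_smul (u ^ m),
    fun z => ?_⟩
  simp only
  rw [h1, smul_smul, ← mul_pow, mul_comm z u]

theorem Near.ord {m : ℕ} {f : ℂ → 𝔸} {H : 𝔸} {a : ℂ}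
    (h : Near m f (fun z => NormedSpace.exp ((-(a * z)) • H))) : ∃ γ, Ord m f H a γ := by
  obtain ⟨r, hr, h1⟩ := h
  exact ⟨_, r, hr, h1, rfl⟩

theorem cont_zero {g : ℂ → 𝔸} (hg : Continuous g) (h : ∀ z : ℂ, z ≠ 0 → g z = 0) : g 0 = 0 := by
  have h2 : Filter.Tendsto g (nhdsWithin 0 {0}ᶜ) (nhds (g 0)) :=
    (hg.tendsto 0).mono_left nhdsWithin_le_nhds
  have h3 : Filter.Tendsto g (nhdsWithin (0 : ℂ) {0}ᶜ) (nhds 0) := by
    apply tendsto_const_nhds.congr'
    filter_upwards [self_mem_nhdsWithin] with z hz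
    exact (h z hz).symm
  exact tendsto_nhds_unique h2 h3

theorem dslope_diff {g : ℂ → 𝔸} (hg : Differentiable ℂ g) : Differentiable ℂ (dslope g 0) := by
  have h1 := (Complex.differentiableOn_dslope (f := g) (s := Set.univ) (c := 0)
    Filter.univ_mem).2 hg.differentiableOn
  exact differentiableOn_univ.1 h1

theorem dslope_zero {g : ℂ → 𝔸} (h0 : g 0 = 0) (z : ℂ) : g z = z • dslope g 0 z := by
  have h2 : (z - 0) • dslope g 0 z = g z - g 0 := sub_smul_dslope g 0 z
  rw [sub_zero, h0, sub_zero] at h2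
  exact h2.symm

/-- integration raises the order of vanishing -/
theorem van_int {N : ℕ} {F : ℂ → 𝔸} (hF : Differentiable ℂ F) (h0 : F 0 = 0) :
    ∀ G : ℂ → 𝔸, Differentiable ℂ G → (∀ z, HasDerivAt F (z ^ N • G z) z) →
      ∃ r : ℂ → 𝔸, Differentiable ℂ r ∧ ∀ z, F z = z ^ (N + 1) • r z := by
  induction N with
  | zero =>
    intro G _ _
    refine ⟨dslope F 0, dslope_diff hF, fun z => ?_⟩
    rw [zero_add, pow_one]
    exact dslope_zero h0 z
  | succ N ih =>
    intro G hG hd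
    obtain ⟨r, hr, h1⟩ := ih (fun z => z • G z) (differentiable_id.smul hG) (fun z => by
      have := hd z
      rwa [pow_succ, mul_smul] at this)
    have h2 : ∀ z, HasDerivAt F (z ^ (N + 1) • deriv r z + (((N + 1 : ℕ) : ℂ) * z ^ N) • r z) z := by
      intro z
      have h3 : HasDerivAt (fun z => z ^ (N + 1) • r z)
          (z ^ (N + 1) • deriv r z + (((N + 1 : ℕ) : ℂ) * z ^ N) • r z) z := by
        have h4 := (hasDerivAt_pow (N + 1) z).smul (hr z).hasDerivAt
        exact h4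
      have h5 : F = fun z => z ^ (N + 1) • r z := funext h1
      rw [h5]
      exact h3
    have h3 : ∀ z : ℂ, z ≠ 0 → z • deriv r z + ((N + 1 : ℕ) : ℂ) • r z - z • G z = 0 := by
      intro z hz
      have h4 := (h2 z).unique (hd z)
      have h5 : z ^ N • (z • deriv r z + ((N + 1 : ℕ) : ℂ) • r z - z • G z) = 0 := by
        rw [smul_sub, smul_add, smul_smul, smul_smul, smul_smul, ← pow_succ, mul_comm (z ^ N)
          ((N + 1 : ℕ) : ℂ), h4, sub_self]
      exact (smul_eq_zero.1 h5).resolve_left (pow_ne_zero N hz)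
    have h4 : (0 : ℂ) • deriv r 0 + ((N + 1 : ℕ) : ℂ) • r 0 - (0 : ℂ) • G 0 = 0 := by
      refine cont_zero (g := fun z => z • deriv r z + ((N + 1 : ℕ) : ℂ) • r z - z • G z) ?_ h3
      exact (((differentiable_id.smul hr.deriv).add (hr.const_smul ((N + 1 : ℕ) : ℂ))).sub
        (differentiable_id.smul hG)).continuous
    rw [zero_smul, zero_smul, zero_add, sub_zero] at h4
    have h5 : r 0 = 0 := (smul_eq_zero.1 h4).resolve_left (by
      exact_mod_cast Nat.succ_ne_zero N)
    refine ⟨dslope r 0, dslope_diff hr, fun z => ?_⟩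
    rw [h1, dslope_zero h5 z, smul_smul, ← pow_succ]

end near

section cut

variable {𝔸 : Type} [NormedRing 𝔸] [NormedAlgebra ℂ 𝔸] [CompleteSpace 𝔸]

/-- commutator -/
def ad (K x : 𝔸) : 𝔸 := K * x - x * K

theorem hasDerivAt_exp_l (a : ℂ) (H : 𝔸) (z : ℂ) :
    HasDerivAt (fun z : ℂ => NormedSpace.exp ((a * z) • H))
      (a • (H * NormedSpace.exp ((a * z) • H))) z := by
  have h2 := hasDerivAt_exp_smul_const (a • H) z
  have h3 : NormedSpace.exp (z • a • H) * a • H = a • (H * NormedSpace.exp ((a * z) • H)) := by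
    have h4 : NormedSpace.exp ((a * z) • H) * H = H * NormedSpace.exp ((a * z) • H) :=
      (((Commute.refl H).smul_left (a * z)).exp_left).eq
    rw [mul_smul_comm, smul_smul, mul_comm z a, h4]
  rw [h3] at h2
  refine h2.congr_of_eventuallyEq (Filter.Eventually.of_forall (fun z => ?_))
  simp only
  rw [smul_smul, mul_comm]

theorem hasDerivAt_exp_r (a : ℂ) (H : 𝔸) (z : ℂ) :
    HasDerivAt (fun z : ℂ => NormedSpace.exp ((a * z) • H))
      (a • (NormedSpace.exp ((a * z) • H) * H)) z := by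
  have h4 : NormedSpace.exp ((a * z) • H) * H = H * NormedSpace.exp ((a * z) • H) :=
    (((Commute.refl H).smul_left (a * z)).exp_left).eq
  rw [h4]
  exact hasDerivAt_exp_l a H z

/-- conjugation by `exp (a z K)` -/
theorem hasDerivAt_conj (a : ℂ) (K x : 𝔸) (z : ℂ) :
    HasDerivAt (fun z : ℂ => NormedSpace.exp ((a * z) • K) * x * NormedSpace.exp ((-a * z) • K))
      (a • (NormedSpace.exp ((a * z) • K) * ad K x * NormedSpace.exp ((-a * z) • K))) z := by
  have h1 := (hasDerivAt_exp_r a K z).mul_const x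
  have h2 := hasDerivAt_exp_l (-a) K z
  refine (h1.mul h2).congr_deriv ?_
  unfold ad
  simp only [smul_mul_assoc, mul_smul_comm, mul_sub, sub_mul, smul_sub, mul_assoc, neg_smul,
    mul_neg]
  abel

theorem conj_diff (a : ℂ) (K x : 𝔸) : Differentiable ℂ
    (fun z : ℂ => NormedSpace.exp ((a * z) • K) * x * NormedSpace.exp ((-a * z) • K)) :=
  fun z => (hasDerivAt_conj a K x z).differentiableAt

/-- the commutator of `H₀` with the evolution of `x` vanishes to high order -/
theorem comm_van (H₀ Ha : 𝔸) (N : ℕ) : ∀ x : 𝔸,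
    (∀ n, n < N → Commute H₀ ((ad Ha)^[n] x)) →
    ∃ r : ℂ → 𝔸, Differentiable ℂ r ∧ ∀ z,
      H₀ * (NormedSpace.exp ((-1 * z) • Ha) * x * NormedSpace.exp ((-(-1) * z) • Ha)) -
        (NormedSpace.exp ((-1 * z) • Ha) * x * NormedSpace.exp ((-(-1) * z) • Ha)) * H₀ =
      z ^ N • r z := by
  induction N with
  | zero =>
    intro x _
    refine ⟨fun z => H₀ * (NormedSpace.exp ((-1 * z) • Ha) * x *
      NormedSpace.exp ((-(-1) * z) • Ha)) - (NormedSpace.exp ((-1 * z) • Ha) * x *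
      NormedSpace.exp ((-(-1) * z) • Ha)) * H₀, ?_, fun z => by rw [pow_zero, one_smul]⟩
    exact ((conj_diff (-1) Ha x).const_mul H₀).sub ((conj_diff (-1) Ha x).mul_const H₀)
  | succ N ih =>
    intro x hx
    obtain ⟨r, hr, h1⟩ := ih (ad Ha x) (fun n hn => by
      have := hx (n + 1) (by omega)
      rwa [Function.iterate_succ_apply] at this)
    apply van_int (N := N)
      (F := fun z => H₀ * (NormedSpace.exp ((-1 * z) • Ha) * x *
        NormedSpace.exp ((-(-1) * z) • Ha)) - (NormedSpace.exp ((-1 * z) • Ha) * x *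
        NormedSpace.exp ((-(-1) * z) • Ha)) * H₀) (G := fun z => -r z)
    · exact ((conj_diff (-1) Ha x).const_mul H₀).sub ((conj_diff (-1) Ha x).mul_const H₀)
    · have h2 := hx 0 (by omega)
      rw [Function.iterate_zero, id] at h2
      simp only [mul_zero, zero_smul, NormedSpace.exp_zero, one_mul, mul_one]
      rw [h2.eq, sub_self]
    · exact hr.neg
    · intro z
      have h2 := hasDerivAt_conj (-1) Ha x z
      refine ((h2.const_mul H₀).sub (h2.mul_const H₀)).congr_deriv ?_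
      rw [smul_neg, ← h1 z]
      simp only [neg_smul, one_smul, mul_neg, neg_mul]
      abel

/-- the cut lemma -/
theorem cut (H₀ Ha R : 𝔸) (N : ℕ) (hN : ∀ n, n < N → Commute H₀ ((ad Ha)^[n] R)) :
    Near (N + 2) (fun z => NormedSpace.exp ((-z) • (Ha + R)) * NormedSpace.exp (z • Ha) *
      NormedSpace.exp ((-z) • (H₀ + Ha))) (fun z => NormedSpace.exp ((-z) • (H₀ + Ha + R))) := by
  obtain ⟨r, hr, h1⟩ := comm_van H₀ Ha N R hN
  -- the product `A` and its inverse
  obtain ⟨A, hA⟩ : ∃ A : ℂ → 𝔸, A = fun z => NormedSpace.exp ((-1 * z) • (Ha + R)) *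
    NormedSpace.exp ((1 * z) • Ha) := ⟨_, rfl⟩
  obtain ⟨Ai, hAi⟩ : ∃ Ai : ℂ → 𝔸, Ai = fun z => NormedSpace.exp ((-1 * z) • Ha) *
    NormedSpace.exp ((1 * z) • (Ha + R)) := ⟨_, rfl⟩
  have hAd : Differentiable ℂ A := by rw [hA]; exact (exp_diff _ _).mul (exp_diff _ _)
  have hAid : Differentiable ℂ Ai := by rw [hAi]; exact (exp_diff _ _).mul (exp_diff _ _)
  have hAAi : ∀ z, Ai z * A z = 1 := by
    intro z
    rw [hA, hAi]
    simp only [neg_mul, one_mul]
    have e1 := exp_mul_neg z (Ha + R)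
    have e2 := exp_neg_mul z Ha
    calc NormedSpace.exp ((-z) • Ha) * NormedSpace.exp (z • (Ha + R)) *
          (NormedSpace.exp ((-z) • (Ha + R)) * NormedSpace.exp (z • Ha))
        = NormedSpace.exp ((-z) • Ha) * ((NormedSpace.exp (z • (Ha + R)) *
          NormedSpace.exp ((-z) • (Ha + R))) * NormedSpace.exp (z • Ha)) := by
          simp only [mul_assoc]
      _ = 1 := by rw [e1, one_mul, e2]
  -- derivatives
  have hA1 : ∀ z, HasDerivAt A (-((Ha + R) * A z) + A z * Ha) z := by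
    intro z
    rw [hA]
    refine ((hasDerivAt_exp_l (-1) (Ha + R) z).mul (hasDerivAt_exp_r 1 Ha z)).congr_deriv ?_
    simp only [neg_smul, one_smul, mul_assoc, neg_mul]
  obtain ⟨Rz, hRz⟩ : ∃ Rz : ℂ → 𝔸, Rz = fun z => NormedSpace.exp ((-1 * z) • Ha) * R *
    NormedSpace.exp ((-(-1) * z) • Ha) := ⟨_, rfl⟩
  have hARz : ∀ z, -((Ha + R) * A z) + A z * Ha = -(A z * Rz z) := by
    intro z
    rw [hA, hRz]
    simp only [neg_mul, one_mul, neg_neg]
    have e1 : NormedSpace.exp ((-z) • (Ha + R)) * (Ha + R) = (Ha + R) *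
      NormedSpace.exp ((-z) • (Ha + R)) := (((Commute.refl (Ha + R)).smul_left (-z)).exp_left).eq
    have e2 : NormedSpace.exp (z • Ha) * Ha = Ha * NormedSpace.exp (z • Ha) :=
      (((Commute.refl Ha).smul_left z).exp_left).eq
    have e3 := exp_mul_neg z Ha
    calc -((Ha + R) * (NormedSpace.exp ((-z) • (Ha + R)) * NormedSpace.exp (z • Ha))) +
          NormedSpace.exp ((-z) • (Ha + R)) * NormedSpace.exp (z • Ha) * Ha
        = -(NormedSpace.exp ((-z) • (Ha + R)) * (Ha + R) * NormedSpace.exp (z • Ha)) +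
          NormedSpace.exp ((-z) • (Ha + R)) * (NormedSpace.exp (z • Ha) * Ha) := by
          rw [e1]
          simp only [mul_assoc]
      _ = -(NormedSpace.exp ((-z) • (Ha + R)) * R * NormedSpace.exp (z • Ha)) := by
          rw [e2, mul_add, add_mul]
          simp only [mul_assoc]
          abel
      _ = -(NormedSpace.exp ((-z) • (Ha + R)) * ((NormedSpace.exp (z • Ha) *
          NormedSpace.exp ((-z) • Ha)) * R) * NormedSpace.exp (z • Ha)) := by
          rw [e3, one_mul]
      _ = _ := by simp only [mul_assoc]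
  have hAi1 : ∀ z, HasDerivAt Ai (Rz z * Ai z) z := by
    intro z
    rw [hAi]
    refine ((hasDerivAt_exp_l (-1) Ha z).mul (hasDerivAt_exp_l 1 (Ha + R) z)).congr_deriv ?_
    rw [hRz]
    simp only [neg_mul, one_mul, neg_neg, neg_smul, one_smul]
    have e1 : NormedSpace.exp ((-z) • Ha) * Ha = Ha * NormedSpace.exp ((-z) • Ha) :=
      (((Commute.refl Ha).smul_left (-z)).exp_left).eq
    have e3 := exp_mul_neg z Ha
    rw [neg_smul] at e1 e3
    calc -(Ha * NormedSpace.exp (-(z • Ha)) * NormedSpace.exp (z • (Ha + R))) +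
          NormedSpace.exp (-(z • Ha)) * ((Ha + R) * NormedSpace.exp (z • (Ha + R)))
        = NormedSpace.exp (-(z • Ha)) * R * NormedSpace.exp (z • (Ha + R)) := by
          rw [← e1, add_mul, mul_add]
          simp only [mul_assoc]
          abel
      _ = NormedSpace.exp (-(z • Ha)) * R * ((NormedSpace.exp (z • Ha) *
          NormedSpace.exp (-(z • Ha))) * NormedSpace.exp (z • (Ha + R))) := by
          rw [e3, one_mul]
      _ = _ := by simp only [mul_assoc]
  -- `A H₀ A⁻¹ - H₀`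
  obtain ⟨u, hu, hu1⟩ := van_int (N := N) (F := fun z => A z * H₀ * Ai z - H₀)
    (((hAd.mul_const H₀).mul hAid).sub_const H₀) (by
      rw [hA, hAi]
      simp [NormedSpace.exp_zero]) (fun z => A z * r z * Ai z) ((hAd.mul hr).mul hAid) (by
      intro z
      refine ((((hA1 z).mul_const H₀).mul (hAi1 z)).sub_const H₀).congr_deriv ?_
      have h2 := h1 z
      rw [hARz]
      have e4 : z ^ N • (A z * r z * Ai z) = A z * (z ^ N • r z) * Ai z := by
        rw [mul_smul_comm, smul_mul_assoc]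
      rw [e4, ← h2]
      have e5 : NormedSpace.exp ((-1 * z) • Ha) * R * NormedSpace.exp ((-(-1) * z) • Ha) = Rz z := by
        rw [hRz]
      rw [e5, mul_sub, sub_mul]
      simp only [neg_mul, mul_assoc]
      abel)
  have hcomm : ∀ z, H₀ * A z - A z * H₀ = -(z ^ (N + 1) • (u z * A z)) := by
    intro z
    have h2 := congrArg (fun y => y * A z) (hu1 z)
    simp only [sub_mul, smul_mul_assoc] at h2
    rw [mul_assoc (A z * H₀), hAAi, mul_one] at h2
    rw [← h2]
    abel
  -- the product `X`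
  obtain ⟨x, hx, hx1⟩ := van_int (N := N + 1) (F := fun z => NormedSpace.exp ((1 * z) •
      (H₀ + Ha + R)) * A z * NormedSpace.exp ((-1 * z) • (H₀ + Ha)) - 1)
    ((((exp_diff _ _).mul hAd).mul (exp_diff _ _)).sub_const 1) (by
      rw [hA]
      simp [NormedSpace.exp_zero])
    (fun z => NormedSpace.exp ((1 * z) • (H₀ + Ha + R)) * (-(u z * A z)) *
      NormedSpace.exp ((-1 * z) • (H₀ + Ha)))
    (((exp_diff _ _).mul (hu.mul hAd).neg).mul (exp_diff _ _)) (by
      intro z
      refine ((((hasDerivAt_exp_r 1 (H₀ + Ha + R) z).mul (hA1 z)).mul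
        (hasDerivAt_exp_l (-1) (H₀ + Ha) z)).sub_const 1).congr_deriv ?_
      simp only [Pi.mul_apply]
      obtain ⟨E, hE⟩ : ∃ E, E = NormedSpace.exp ((1 * z) • (H₀ + Ha + R)) := ⟨_, rfl⟩
      obtain ⟨E', hE'⟩ : ∃ E', E' = NormedSpace.exp ((-1 * z) • (H₀ + Ha)) := ⟨_, rfl⟩
      have e7 : z ^ (N + 1) • (E * -(u z * A z) * E') =
          E * (-(z ^ (N + 1) • (u z * A z))) * E' := by
        simp only [mul_neg, neg_mul, mul_smul_comm, smul_mul_assoc, smul_neg]
      rw [← hE, ← hE', e7, ← hcomm z]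
      simp only [one_smul, neg_smul]
      simp only [mul_add, add_mul, mul_sub, sub_mul, mul_neg, neg_mul, mul_assoc]
      abel)
  refine ⟨fun z => NormedSpace.exp ((-1 * z) • (H₀ + Ha + R)) * x z, (exp_diff _ _).mul hx, ?_⟩
  intro z
  have h2 := congrArg (fun y => NormedSpace.exp ((-1 * z) • (H₀ + Ha + R)) * y) (hx1 z)
  simp only [mul_sub, mul_one, mul_smul_comm] at h2
  rw [← mul_assoc, ← mul_assoc] at h2
  have e6 : NormedSpace.exp ((-1 * z) • (H₀ + Ha + R)) * NormedSpace.exp ((1 * z) •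
      (H₀ + Ha + R)) = 1 := by
    have := exp_neg_mul z (H₀ + Ha + R)
    rwa [neg_mul, one_mul]
  rw [e6, one_mul, sub_eq_iff_eq_add] at h2
  rw [hA] at h2
  simp only [neg_mul, one_mul] at h2 ⊢
  rw [h2, add_comm]

end cut

section reverse

variable {c : ℕ} {𝔸 : Type} [NormedRing 𝔸] [NormedAlgebra ℂ 𝔸] [CompleteSpace 𝔸]

theorem near_reverse {M : ℕ} {K : Fin c → 𝔸} {l : List (Fin c × ℝ)} {H : 𝔸} {a : ℂ}
    (h : Near M (fun z => P K l z) (fun z => NormedSpace.exp ((-(a * z)) • H))) :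
    Near M (fun z => P K l.reverse z) (fun z => NormedSpace.exp ((-(a * z)) • H)) := by
  obtain ⟨r, hr, h1⟩ := h
  have hd1 : Differentiable ℂ (fun z : ℂ => r (-z)) := hr.comp differentiable_neg
  have hd2 : Differentiable ℂ (fun z : ℂ => NormedSpace.exp ((-a * z) • H) * (r (-z) *
      P K l.reverse z)) := (exp_diff (-a) H).mul (hd1.mul (P_diff K l.reverse))
  refine ⟨fun z => -((-1 : ℂ) ^ M • (NormedSpace.exp ((-a * z) • H) * (r (-z) *
    P K l.reverse z))), ?_, ?_⟩
  · exact (hd2.const_smul ((-1 : ℂ) ^ M)).neg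
  · intro z
    have h2 := P_mul_reverse K l (-z)
    rw [neg_neg] at h2
    simp only at h1
    rw [h1 (-z)] at h2
    have e1 : (-(a * -z)) • H = (a * z) • H := by
      congr 1
      ring
    have e2 : (-a * z) • H = (-(a * z)) • H := by
      congr 1
      ring
    rw [e1, add_mul, smul_mul_assoc] at h2
    have h3 := congrArg (fun y => NormedSpace.exp ((-(a * z)) • H) * y) h2
    simp only [mul_add, mul_one] at h3
    rw [← mul_assoc, exp_neg_mul, one_mul, mul_smul_comm] at h3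
    simp only
    rw [e2]
    obtain ⟨E, hE⟩ : ∃ E, E = NormedSpace.exp ((-(a * z)) • H) := ⟨_, rfl⟩
    rw [← hE] at h3 ⊢
    have h4 : P K l.reverse z = E - (-z) ^ M • (E * (r (-z) * P K l.reverse z)) :=
      eq_sub_of_add_eq h3
    have h5 : (-z) ^ M • (E * (r (-z) * P K l.reverse z)) =
        z ^ M • ((-1 : ℂ) ^ M • (E * (r (-z) * P K l.reverse z))) := by
      rw [smul_smul, ← mul_pow, mul_neg_one]
    rw [h5, sub_eq_add_neg, ← smul_neg] at h4
    exact h4

end reverse

end Pool.Agent.Hhelper17.PE
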