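import Mathlib

/-!
Products of exponentials `∏ exp (-(a z) K_c)` in a Banach algebra and their order of approximation of
`exp (-(z) ∑ K_c)`.  Everything is an entire function of `z`.
-/

set_option autoImplicit false
set_option linter.unusedSectionVars false

open scoped BigOperators

namespace Pool.Agent.Hhelper17.PE

section order

variable {𝔸 : Type} [NormedRing 𝔸] [NormedAlgebra ℂ 𝔸] [CompleteSpace 𝔸]

theorem exp_diff (a : ℂ) (H : 𝔸) : Differentiable ℂ (fun z : ℂ => NormedSpace.exp ((a * z) • H)) := by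
  intro z
  have h1 : (fun z : ℂ => NormedSpace.exp ((a * z) • H)) =
      fun z : ℂ => NormedSpace.exp (z • (a • H)) := by
    funext z
    rw [smul_smul, mul_comm]
  rw [h1]
  exact (hasDerivAt_exp_smul_const (a • H) z).differentiableAt

theorem exp_add_smul (a b : ℂ) (H : 𝔸) :
    NormedSpace.exp ((a + b) • H) = NormedSpace.exp (a • H) * NormedSpace.exp (b • H) := by
  let _i : NormedAlgebra ℚ 𝔸 := NormedAlgebra.restrictScalars ℚ ℂ 𝔸
  rw [add_smul]
  apply NormedSpace.exp_add_of_commute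
  exact ((Commute.refl H).smul_left a).smul_right b

theorem exp_mul_neg (a : ℂ) (H : 𝔸) :
    NormedSpace.exp (a • H) * NormedSpace.exp ((-a) • H) = 1 := by
  rw [← exp_add_smul, add_neg_cancel, zero_smul, NormedSpace.exp_zero]

theorem exp_neg_mul (a : ℂ) (H : 𝔸) :
    NormedSpace.exp ((-a) • H) * NormedSpace.exp (a • H) = 1 := by
  rw [← exp_add_smul, neg_add_cancel, zero_smul, NormedSpace.exp_zero]

/-- `f z = exp (-(a z) H) + z ^ m g z` with `g` entire and `g 0 = γ` -/
def Ord (m : ℕ) (f : ℂ → 𝔸) (H : 𝔸) (a : ℂ) (γ : 𝔸) : Prop :=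
  ∃ g : ℂ → 𝔸, Differentiable ℂ g ∧
    (∀ z, f z = NormedSpace.exp ((-(a * z)) • H) + z ^ m • g z) ∧ g 0 = γ

theorem Ord.mul {m : ℕ} (hm : 1 ≤ m) {f f' : ℂ → 𝔸} {H : 𝔸} {a a' : ℂ} {γ γ' : 𝔸}
    (h : Ord m f H a γ) (h' : Ord m f' H a' γ') :
    Ord m (fun z => f z * f' z) H (a + a') (γ + γ') := by
  obtain ⟨g, hg, hf, h0⟩ := h
  obtain ⟨g', hg', hf', h0'⟩ := h'
  have e1 : Differentiable ℂ (fun z : ℂ => NormedSpace.exp ((-(a * z)) • H)) := by
    have := exp_diff (-a) H
    simpa only [neg_mul] using this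
  have e2 : Differentiable ℂ (fun z : ℂ => NormedSpace.exp ((-(a' * z)) • H)) := by
    have := exp_diff (-a') H
    simpa only [neg_mul] using this
  refine ⟨fun z => g z * NormedSpace.exp ((-(a' * z)) • H) +
    NormedSpace.exp ((-(a * z)) • H) * g' z + z ^ m • (g z * g' z), ?_, ?_, ?_⟩
  · refine ((hg.mul e2).add (e1.mul hg')).add ?_
    exact (differentiable_id.pow m).smul (hg.mul hg')
  · intro z
    simp only
    rw [hf z, hf' z]
    have e3 : NormedSpace.exp ((-((a + a') * z)) • H) =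
        NormedSpace.exp ((-(a * z)) • H) * NormedSpace.exp ((-(a' * z)) • H) := by
      rw [← exp_add_smul]
      congr 2
      ring
    rw [e3]
    simp only [add_mul, mul_add, smul_add, smul_mul_assoc, mul_smul_comm, smul_smul]
    abel
  · simp only
    rw [h0, h0', zero_pow (by omega)]
    simp

theorem Ord.scale {m : ℕ} {f : ℂ → 𝔸} {H : 𝔸} {a : ℂ} {γ : 𝔸} (h : Ord m f H a γ) (u : ℂ) :
    Ord m (fun z => f (u * z)) H (a * u) (u ^ m • γ) := by
  obtain ⟨g, hg, hf, h0⟩ := h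
  refine ⟨fun z => u ^ m • g (u * z), ?_, ?_, ?_⟩
  · exact (hg.comp (differentiable_id.const_mul u)).const_smul (u ^ m)
  · intro z
    simp only
    rw [hf, smul_smul, ← mul_pow, mul_comm z u, mul_assoc]
  · simp only
    rw [mul_zero, h0]

theorem Ord.raise {m : ℕ} {f : ℂ → 𝔸} {H : 𝔸} {a : ℂ} (h : Ord m f H a 0) :
    ∃ γ, Ord (m + 1) f H a γ := by
  obtain ⟨g, hg, hf, h0⟩ := h
  refine ⟨_, dslope g 0, ?_, ?_, rfl⟩
  · have h1 := (Complex.differentiableOn_dslope (f := g) (s := Set.univ) (c := 0)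
      Filter.univ_mem).2 hg.differentiableOn
    exact differentiableOn_univ.1 h1
  · intro z
    rw [hf z]
    congr 1
    have h2 : (z - 0) • dslope g 0 z = g z - g 0 := sub_smul_dslope g 0 z
    rw [sub_zero, h0, sub_zero] at h2
    rw [← h2, smul_smul, pow_succ]

theorem Ord.congr {m : ℕ} {f f' : ℂ → 𝔸} {H : 𝔸} {a a' : ℂ} {γ γ' : 𝔸} (h : Ord m f H a γ)
    (hf : ∀ z, f z = f' z) (ha : a = a') (hγ : γ = γ') : Ord m f' H a' γ' := by
  subst ha hγ
  obtain ⟨g, hg, hf1, h0⟩ := h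
  exact ⟨g, hg, fun z => by rw [← hf, hf1], h0⟩

/-- the constant function `1` has no error term -/
theorem Ord.eq_zero {m : ℕ} {H : 𝔸} {γ : 𝔸} (h : Ord m (fun _ => (1 : 𝔸)) H 0 γ) : γ = 0 := by
  obtain ⟨g, hg, hf, h0⟩ := h
  have h1 : ∀ z : ℂ, z ≠ 0 → g z = 0 := by
    intro z hz
    have h2 := hf z
    rw [zero_mul, neg_zero, zero_smul, NormedSpace.exp_zero] at h2
    have h3 : z ^ m • g z = 0 := by
      have := h2.symm
      rwa [add_eq_left] at this
    exact (smul_eq_zero.1 h3).resolve_left (pow_ne_zero m hz)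
  have h2 : Filter.Tendsto g (nhdsWithin 0 {0}ᶜ) (nhds (g 0)) :=
    (hg.continuous.tendsto 0).mono_left nhdsWithin_le_nhds
  have h3 : Filter.Tendsto g (nhdsWithin (0 : ℂ) {0}ᶜ) (nhds 0) := by
    apply tendsto_const_nhds.congr'
    filter_upwards [self_mem_nhdsWithin] with z hz
    exact (h1 z hz).symm
  rw [← h0]
  exact tendsto_nhds_unique h2 h3

/-- time symmetric functions have no error term of even order -/
theorem Ord.even {m : ℕ} (hm : 1 ≤ m) (he : Even m) {f : ℂ → 𝔸} {H : 𝔸} {γ : 𝔸}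
    (h : Ord m f H 1 γ) (hs : ∀ z, f z * f (-z) = 1) : γ = 0 := by
  have h1 := h.scale (-1)
  have h2 := (h.mul hm h1).congr (f' := fun _ => (1 : 𝔸)) (a' := 0) (γ' := (2 : ℂ) • γ)
    (fun z => by rw [neg_one_mul]; exact hs z) (by ring) (by
      rw [he.neg_one_pow, one_smul, two_smul])
  have h3 := h2.eq_zero
  exact (smul_eq_zero.1 h3).resolve_left (by norm_num)

end order

section lists

variable {c : ℕ} {𝔸 : Type} [NormedRing 𝔸] [NormedAlgebra ℂ 𝔸] [CompleteSpace 𝔸]

/-- product of the exponentials of a list of (colour, coefficient) -/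
noncomputable def P (K : Fin c → 𝔸) (l : List (Fin c × ℝ)) (z : ℂ) : 𝔸 :=
  (l.map (fun b => NormedSpace.exp ((-((b.2 : ℂ) * z)) • K b.1))).prod

/-- scaling the coefficients of a list -/
def sc (u : ℝ) (l : List (Fin c × ℝ)) : List (Fin c × ℝ) := l.map (fun b => (b.1, u * b.2))

variable (K : Fin c → 𝔸)

theorem P_nil (z : ℂ) : P K [] z = 1 := rfl

theorem P_cons (b : Fin c × ℝ) (l : List (Fin c × ℝ)) (z : ℂ) :
    P K (b :: l) z = NormedSpace.exp ((-((b.2 : ℂ) * z)) • K b.1) * P K l z := by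
  unfold P
  rw [List.map_cons, List.prod_cons]

theorem P_append (l l' : List (Fin c × ℝ)) (z : ℂ) : P K (l ++ l') z = P K l z * P K l' z := by
  unfold P
  rw [List.map_append, List.prod_append]

theorem P_single (b : Fin c × ℝ) (z : ℂ) :
    P K [b] z = NormedSpace.exp ((-((b.2 : ℂ) * z)) • K b.1) := by
  rw [P_cons, P_nil, mul_one]

theorem P_sc (u : ℝ) (l : List (Fin c × ℝ)) (z : ℂ) : P K (sc u l) z = P K l ((u : ℂ) * z) := by
  unfold P sc
  rw [List.map_map]
  congr 2
  funext b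
  simp only [Function.comp_apply]
  congr 2
  push_cast
  ring

theorem sc_reverse (u : ℝ) (l : List (Fin c × ℝ)) : (sc u l).reverse = sc u l.reverse := by
  unfold sc
  rw [List.map_reverse]

theorem P_zero (l : List (Fin c × ℝ)) : P K l 0 = 1 := by
  induction l with
  | nil => rfl
  | cons b l ih =>
    rw [P_cons, ih, mul_one, mul_zero, neg_zero, zero_smul, NormedSpace.exp_zero]

theorem P_diff (l : List (Fin c × ℝ)) : Differentiable ℂ (fun z => P K l z) := by
  induction l with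
  | nil =>
    simp only [P_nil]
    exact differentiable_const 1
  | cons b l ih =>
    simp only [P_cons]
    have := exp_diff (-(b.2 : ℂ)) (K b.1)
    simp only [neg_mul] at this
    exact this.mul ih

/-- inverse of a product -/
theorem P_mul_reverse (l : List (Fin c × ℝ)) (z : ℂ) : P K l z * P K l.reverse (-z) = 1 := by
  induction l with
  | nil => simp [P_nil]
  | cons b l ih =>
    rw [P_cons, List.reverse_cons, P_append, P_single, mul_assoc, ← mul_assoc (P K l z), ih,
      one_mul]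
    have := exp_mul_neg (-((b.2 : ℂ) * z)) (K b.1)
    rw [← this]
    congr 3
    ring

theorem P_reverse_mul (l : List (Fin c × ℝ)) (z : ℂ) : P K l.reverse (-z) * P K l z = 1 := by
  have := P_mul_reverse K l.reverse (-z)
  rwa [List.reverse_reverse, neg_neg] at this

/-- derivative at `0` -/
theorem P_hasDerivAt_zero (l : List (Fin c × ℝ)) :
    HasDerivAt (fun z => P K l z) (-(l.map (fun b => (b.2 : ℂ) • K b.1)).sum) 0 := by
  induction l with
  | nil =>
    simp only [P_nil, List.map_nil, List.sum_nil, neg_zero]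
    exact hasDerivAt_const 0 1
  | cons b l ih =>
    simp only [P_cons]
    have h1 : HasDerivAt (fun z : ℂ => NormedSpace.exp ((-((b.2 : ℂ) * z)) • K b.1))
        (-((b.2 : ℂ) • K b.1)) 0 := by
      have h2 := hasDerivAt_exp_smul_const (-((b.2 : ℂ) • K b.1)) (0 : ℂ)
      rw [zero_smul, NormedSpace.exp_zero, one_mul] at h2
      refine h2.congr_of_eventuallyEq (Filter.Eventually.of_forall (fun z => ?_))
      simp only
      congr 1
      rw [smul_neg, smul_smul, neg_smul, mul_comm]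
    have h3 := h1.mul ih
    have e0 : P K l 0 = 1 := P_zero K l
    rw [e0, mul_zero, neg_zero, zero_smul, NormedSpace.exp_zero, one_mul, mul_one] at h3
    rw [List.map_cons, List.sum_cons, neg_add]
    exact h3

end lists

section scheme

/-- `S = V V^` of order `2 p` for the splitting of a sum of `c` elements -/
def Good (c p : ℕ) (w : List (Fin c × ℝ)) : Prop :=
  ∀ (𝔸 : Type) [NormedRing 𝔸] [NormedAlgebra ℂ 𝔸] [CompleteSpace 𝔸] (K : Fin c → 𝔸),
    ∃ γ : 𝔸, Ord (2 * p + 1) (fun z => P K (w ++ w.reverse) z) (∑ b, K b) 1 γ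

variable {c : ℕ} {𝔸 : Type} [NormedRing 𝔸] [NormedAlgebra ℂ 𝔸] [CompleteSpace 𝔸]

theorem symm_P (K : Fin c → 𝔸) (w : List (Fin c × ℝ)) (z : ℂ) :
    P K (w ++ w.reverse) z * P K (w ++ w.reverse) (-z) = 1 := by
  have h := P_mul_reverse K (w ++ w.reverse) z
  rwa [List.reverse_append, List.reverse_reverse] at h

/-- from order `m` odd with vanishing coefficient to order `m + 2` -/
theorem raise_two (K : Fin c → 𝔸) (w : List (Fin c × ℝ)) {m : ℕ} (hm : Odd m) {H : 𝔸}
    (h : Ord m (fun z => P K (w ++ w.reverse) z) H 1 0) :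
    ∃ γ, Ord (m + 2) (fun z => P K (w ++ w.reverse) z) H 1 γ := by
  obtain ⟨γ, h1⟩ := h.raise
  have h2 : γ = 0 := h1.even (by omega) hm.add_one (fun z => symm_P K w z)
  rw [h2] at h1
  exact h1.raise

theorem good_one (c : ℕ) : Good c 1 ((List.finRange c).map (fun b => (b, (1 / 2 : ℝ)))) := by
  intro 𝔸 _ _ _ K
  obtain ⟨w, hw⟩ : ∃ w : List (Fin c × ℝ), w = (List.finRange c).map (fun b => (b, (1 / 2 : ℝ))) :=
    ⟨_, rfl⟩
  rw [← hw]
  have hsum : (w.map (fun b => (b.2 : ℂ) • K b.1)).sum = (1 / 2 : ℂ) • ∑ b, K b := by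
    rw [hw, List.map_map, Finset.smul_sum, Fin.sum_univ_def]
    congr 2
    funext b
    simp only [Function.comp_apply]
    push_cast
    rfl
  have hsum2 : ((w ++ w.reverse).map (fun b => (b.2 : ℂ) • K b.1)).sum = ∑ b, K b := by
    rw [List.map_append, List.sum_append, List.map_reverse, List.sum_reverse, hsum, ← add_smul]
    norm_num
  -- order one
  have h0 : Ord 0 (fun z => P K (w ++ w.reverse) z) (∑ b, K b) 1 0 := by
    refine ⟨fun z => P K (w ++ w.reverse) z - NormedSpace.exp ((-(1 * z)) • ∑ b, K b), ?_, ?_, ?_⟩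
    · refine (P_diff K _).sub ?_
      have := exp_diff (-1) (∑ b, K b)
      simpa only [neg_mul] using this
    · intro z
      simp
    · simp only
      rw [P_zero, mul_zero, neg_zero, zero_smul, NormedSpace.exp_zero, sub_self]
  obtain ⟨γ, h1⟩ := h0.raise
  have h2 : γ = 0 := by
    obtain ⟨g, hg, hf, hg0⟩ := h1
    have d1 := P_hasDerivAt_zero K (w ++ w.reverse)
    rw [hsum2] at d1
    have d2 : HasDerivAt (fun z : ℂ => NormedSpace.exp ((-(1 * z)) • ∑ b, K b))
        (-(∑ b, K b)) 0 := by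
      have h2 := hasDerivAt_exp_smul_const (-(∑ b, K b)) (0 : ℂ)
      rw [zero_smul, NormedSpace.exp_zero, one_mul] at h2
      refine h2.congr_of_eventuallyEq (Filter.Eventually.of_forall (fun z => ?_))
      simp only
      congr 1
      rw [smul_neg, one_mul, neg_smul]
    have d3 : HasDerivAt (fun z : ℂ => z ^ (0 + 1) • g z) (g 0) 0 := by
      have h3 := (hasDerivAt_id (0 : ℂ)).smul (hg 0).hasDerivAt
      simp only [id, zero_smul, one_smul, zero_add] at h3
      refine h3.congr_of_eventuallyEq (Filter.Eventually.of_forall (fun z => ?_))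
      simp
    have d4 := d2.add d3
    have d5 : HasDerivAt (fun z => P K (w ++ w.reverse) z) (-(∑ b, K b) + g 0) 0 := by
      refine d4.congr_of_eventuallyEq (Filter.Eventually.of_forall (fun z => ?_))
      exact hf z
    have d6 := d1.unique d5
    rw [← hg0]
    have d7 : -(∑ b, K b) + g 0 = -(∑ b, K b) + 0 := by rw [← d6, add_zero]
    exact add_left_cancel d7
  rw [h2] at h1
  have h3 := raise_two K w (m := 0 + 1) (by decide) h1
  exact h3

/-- the coefficient of the Suzuki recursion -/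
theorem exists_coef (m : ℕ) (hm : Odd m) (hm3 : 3 ≤ m) :
    ∃ u : ℝ, 4 * u ^ m + (1 - 4 * u) ^ m = 0 := by
  obtain ⟨a, ha⟩ : ∃ a : ℝ, a = (4 : ℝ) ^ ((1 : ℝ) / m) := ⟨_, rfl⟩
  have hm0 : (m : ℝ) ≠ 0 := by
    have : m ≠ 0 := by omega
    exact_mod_cast this
  have ham : a ^ m = 4 := by
    rw [ha, ← Real.rpow_natCast, ← Real.rpow_mul (by norm_num)]
    rw [one_div, inv_mul_cancel₀ hm0, Real.rpow_one]
  have ha4 : 4 - a ≠ 0 := by
    intro h
    have h1 : a = 4 := by linarith
    rw [h1] at ham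
    have h2 : (4 : ℝ) ^ 1 < 4 ^ m := pow_lt_pow_right₀ (by norm_num) (by omega)
    rw [ham] at h2
    norm_num at h2
  refine ⟨1 / (4 - a), ?_⟩
  have h1 : 1 - 4 * (1 / (4 - a)) = -(a * (1 / (4 - a))) := by
    field_simp
    ring
  rw [h1, hm.neg_pow, mul_pow, ham]
  ring

theorem good_succ {p : ℕ} (hp : 1 ≤ p) {w : List (Fin c × ℝ)} (h : Good c p w) :
    ∃ w', Good c (p + 1) w' := by
  obtain ⟨u, hu⟩ := exists_coef (2 * p + 1) ⟨p, rfl⟩ (by omega)
  refine ⟨sc u (w ++ w.reverse) ++ (sc u (w ++ w.reverse) ++ sc (1 - 4 * u) w), ?_⟩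
  intro 𝔸 _ _ _ K
  obtain ⟨γ, h1⟩ := h 𝔸 K
  obtain ⟨w', hw'⟩ : ∃ w', w' = sc u (w ++ w.reverse) ++ (sc u (w ++ w.reverse) ++
    sc (1 - 4 * u) w) := ⟨_, rfl⟩
  rw [← hw']
  have hQ : ∀ z, P K (w' ++ w'.reverse) z =
      (P K (w ++ w.reverse) ((u : ℂ) * z) * P K (w ++ w.reverse) ((u : ℂ) * z)) *
      P K (w ++ w.reverse) (((1 - 4 * u : ℝ) : ℂ) * z) *
      (P K (w ++ w.reverse) ((u : ℂ) * z) * P K (w ++ w.reverse) ((u : ℂ) * z)) := by
    intro z
    rw [hw']
    simp only [List.reverse_append, sc_reverse, List.reverse_reverse, P_append, P_sc]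
    simp only [mul_assoc]
  have hm : 1 ≤ 2 * p + 1 := by omega
  have h2 := h1.scale (u : ℂ)
  have h3 := h1.scale ((1 - 4 * u : ℝ) : ℂ)
  have h4 := ((h2.mul hm h2).mul hm h3).mul hm (h2.mul hm h2)
  have h5 : Ord (2 * p + 1) (fun z => P K (w' ++ w'.reverse) z) (∑ b, K b) 1 0 := by
    refine h4.congr (fun z => (hQ z).symm) ?_ ?_
    · push_cast
      ring
    · have h6 : ((4 * u ^ (2 * p + 1) + (1 - 4 * u) ^ (2 * p + 1) : ℝ) : ℂ) = 0 := by
        rw [hu]
        simp
      have h7 : ((u : ℂ) ^ (2 * p + 1) • γ + (u : ℂ) ^ (2 * p + 1) • γ +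
          ((1 - 4 * u : ℝ) : ℂ) ^ (2 * p + 1) • γ +
          ((u : ℂ) ^ (2 * p + 1) • γ + (u : ℂ) ^ (2 * p + 1) • γ)) =
          ((4 * u ^ (2 * p + 1) + (1 - 4 * u) ^ (2 * p + 1) : ℝ) : ℂ) • γ := by
        rw [← add_smul, ← add_smul, ← add_smul]
        congr 1
        push_cast
        ring
      rw [h7, h6, zero_smul]
  have h8 := raise_two K w' ⟨p, rfl⟩ h5
  exact h8

theorem exists_good (c p : ℕ) (hp : 1 ≤ p) : ∃ w : List (Fin c × ℝ), Good c p w := by
  induction p with
  | zero => omega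
  | succ p ih =>
    rcases Nat.eq_zero_or_pos p with rfl | h
    · exact ⟨_, good_one c⟩
    · obtain ⟨w, hw⟩ := ih h
      exact good_succ h hw

end scheme

end Pool.Agent.Hhelper17.PE
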